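import Mathlib

set_option autoImplicit false

/-!
# The sum norm on finitely supported functions, and a separation lemma
-/

namespace Pool.Agent.H9Thin

/-- The sum of the absolute values of the coefficients. -/
noncomputable def l1 {Q : Type} (x : Q →₀ ℝ) : ℝ := x.sum fun _ r => |r|

variable {Q : Type}

theorem l1_eq_of_subset (x : Q →₀ ℝ) {s : Finset Q} (h : x.support ⊆ s) :
    l1 x = ∑ q ∈ s, |x q| := by
  rw [l1, Finsupp.sum]
  refine Finset.sum_subset h ?_
  intro q _ hq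
  rw [Finsupp.notMem_support_iff.mp hq, abs_zero]

theorem l1_nonneg (x : Q →₀ ℝ) : 0 ≤ l1 x :=
  Finset.sum_nonneg fun _ _ => abs_nonneg _

theorem sum_le_l1 (x : Q →₀ ℝ) (s : Finset Q) : ∑ q ∈ s, |x q| ≤ l1 x := by
  classical
  rw [l1_eq_of_subset x (s := x.support ∪ s) Finset.subset_union_left]
  exact Finset.sum_le_sum_of_subset_of_nonneg Finset.subset_union_right
    fun _ _ _ => abs_nonneg _

theorem l1_zero : l1 (0 : Q →₀ ℝ) = 0 := by
  simp [l1]

theorem eq_zero_of_l1 {x : Q →₀ ℝ} (h : l1 x = 0) : x = 0 := by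
  ext q
  have h1 := sum_le_l1 x {q}
  rw [Finset.sum_singleton, h] at h1
  exact abs_nonpos_iff.mp h1

theorem l1_add_le (x y : Q →₀ ℝ) : l1 (x + y) ≤ l1 x + l1 y := by
  classical
  rw [l1_eq_of_subset (x + y) (s := x.support ∪ y.support) Finsupp.support_add,
    l1_eq_of_subset x (s := x.support ∪ y.support) Finset.subset_union_left,
    l1_eq_of_subset y (s := x.support ∪ y.support) Finset.subset_union_right,
    ← Finset.sum_add_distrib]
  exact Finset.sum_le_sum fun q _ => abs_add_le _ _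

theorem l1_smul (c : ℝ) (x : Q →₀ ℝ) : l1 (c • x) = |c| * l1 x := by
  rw [l1_eq_of_subset (c • x) (s := x.support) (Finsupp.support_smul), l1, Finsupp.sum,
    Finset.mul_sum]
  refine Finset.sum_congr rfl fun q _ => ?_
  rw [Finsupp.smul_apply, smul_eq_mul, abs_mul]

/-- The norm as a seminorm. -/
noncomputable def l1s (Q : Type) : Seminorm ℝ (Q →₀ ℝ) :=
  Seminorm.of l1 l1_add_le l1_smul

theorem l1s_apply (x : Q →₀ ℝ) : l1s Q x = l1 x := rfl

/-- A vector at positive distance from a subspace is separated from it by a bounded functional. -/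
theorem separate (S : Submodule ℝ (Q →₀ ℝ)) (w : Q →₀ ℝ) (δ : ℝ) (hδ : 0 < δ)
    (h : ∀ s ∈ S, δ ≤ l1 (w - s)) :
    ∃ ψ : (Q →₀ ℝ) →ₗ[ℝ] ℝ, (∀ x, |ψ x| ≤ l1 x) ∧ (∀ s ∈ S, ψ s = 0) ∧ ψ w ≠ 0 := by
  have hw : w ∉ S := by
    intro hw
    have := h w hw
    rw [sub_self, l1_zero] at this
    linarith
  obtain ⟨ψ₀, h1, h2⟩ := Submodule.exists_dual_map_eq_bot_of_notMem hw inferInstance
  have h3 : ∀ s ∈ S, ψ₀ s = 0 := by
    intro s hs
    have : ψ₀ s ∈ S.map ψ₀ := ⟨s, hs, rfl⟩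
    rw [h2] at this
    exact this
  set S₁ : Submodule ℝ (Q →₀ ℝ) := S ⊔ Submodule.span ℝ {w} with hS₁
  set f : Module.Dual ℝ S₁ := ((δ * (ψ₀ w)⁻¹) • ψ₀).domRestrict S₁ with hf
  have hfx : ∀ x : S₁, f x = δ * (ψ₀ w)⁻¹ * ψ₀ x := by
    intro x
    simp [hf, LinearMap.domRestrict_apply]
  obtain ⟨g, hg1, hg2⟩ := Module.Dual.exists_extension_of_le_seminorm_real S₁ f (p := l1s Q) (by
    rintro ⟨x, hx⟩
    rw [hfx, l1s_apply]
    obtain ⟨s, hs, y, hy, rfl⟩ := Submodule.mem_sup.mp hx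
    obtain ⟨c, rfl⟩ := Submodule.mem_span_singleton.mp hy
    show δ * (ψ₀ w)⁻¹ * ψ₀ (s + c • w) ≤ l1 (s + c • w)
    rw [map_add, h3 s hs, zero_add, map_smul, smul_eq_mul]
    have e1 : δ * (ψ₀ w)⁻¹ * (c * ψ₀ w) = δ * c := by
      field_simp
    rw [e1]
    by_cases hc : c = 0
    · rw [hc]
      simpa using l1_nonneg _
    · have e2 : s + c • w = c • (w - (-(c⁻¹ • s))) := by
        rw [sub_neg_eq_add, smul_add, smul_smul, mul_inv_cancel₀ hc, one_smul, add_comm]
      rw [e2, l1_smul]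
      have e3 := h (-(c⁻¹ • s)) (Submodule.neg_mem _ (Submodule.smul_mem _ _ hs))
      have e4 : δ * c ≤ |c| * δ := by
        rw [mul_comm]
        exact mul_le_mul_of_nonneg_right (le_abs_self c) hδ.le
      exact e4.trans (mul_le_mul_of_nonneg_left e3 (abs_nonneg c)))
  refine ⟨g, fun x => hg2 x, ?_, ?_⟩
  · intro s hs
    have hs' : s ∈ S₁ := Submodule.mem_sup_left hs
    have := hg1 ⟨s, hs'⟩
    rw [hfx] at this
    simp only at this
    rw [this, h3 s hs, mul_zero]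
  · have hw' : w ∈ S₁ := Submodule.mem_sup_right (Submodule.mem_span_singleton_self w)
    have := hg1 ⟨w, hw'⟩
    rw [hfx] at this
    simp only at this
    rw [this, mul_assoc, inv_mul_cancel₀ h1, mul_one]
    exact hδ.ne'

end Pool.Agent.H9Thin
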