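import Pool.Agent.H9Thin.Lift
import Pool.Agent.H9Thin.Norm

set_option autoImplicit false

/-!
# Orbits of a subgroup on a set with a free action
-/

namespace Pool.Agent.H9Thin

open Pool.Agent.AutDim3

/-- The orbits of (the image of) `N`. -/
def orb {N G : Type} [Group N] [Group G] (φ : N →* G) (E : Type) [MulAction G E] : Setoid E where
  r x y := ∃ n : N, y = φ n • x
  iseqv := by
    refine ⟨fun x => ⟨1, by simp⟩, ?_, ?_⟩
    · rintro x y ⟨n, rfl⟩
      exact ⟨n⁻¹, by simp⟩
    · rintro x y z ⟨n, rfl⟩ ⟨m, rfl⟩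
      exact ⟨m * n, by rw [map_mul, mul_smul]⟩

section Desc

variable {N G : Type} [Group N] [Group G] (φ : N →* G) {E : Type} [MulAction G E]

/-- The projection of chains to the quotient by `N`. -/
noncomputable def prj (E : Type) [MulAction G E] :
    (E →₀ ℝ) →ₗ[ℝ] (Quotient (orb φ E) →₀ ℝ) :=
  Finsupp.lmapDomain ℝ ℝ (Quotient.mk (orb φ E))

theorem prj_single (x : E) (r : ℝ) :
    prj φ E (Finsupp.single x r) = Finsupp.single (Quotient.mk (orb φ E) x) r := by
  simp [prj]

theorem prj_perm (n : N) (c : E →₀ ℝ) : prj φ E (perm G E (φ n) c) = prj φ E c := by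
  have : (prj φ E) ∘ₗ (perm G E (φ n)) = prj φ E := by
    apply Finsupp.lhom_ext
    intro x r
    rw [LinearMap.comp_apply, perm_single, prj_single, prj_single]
    congr 1
    exact (Quotient.sound ⟨n, rfl⟩ : Quotient.mk (orb φ E) x =
      Quotient.mk (orb φ E) (φ n • x)).symm
  exact LinearMap.congr_fun this c

theorem l1_mapDomain_le {A B : Type} (f : A → B) (c : A →₀ ℝ) :
    l1 (c.mapDomain f) ≤ l1 c := by
  classical
  induction c using Finsupp.induction with
  | zero => simp [l1_zero]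
  | single_add a r c ha hr ih =>
    rw [Finsupp.mapDomain_add, Finsupp.mapDomain_single]
    refine (l1_add_le _ _).trans ?_
    have h1 : ∀ (C : Type) (x : C), l1 (Finsupp.single x r) = |r| := by
      intro C x
      simp [l1]
    have h2 : l1 (Finsupp.single a r + c) = |r| + l1 c := by
      have hd : Disjoint (Finsupp.single a r).support c.support := by
        refine Finset.disjoint_left.mpr fun x hx => ?_
        rw [Finset.mem_singleton.mp (Finsupp.support_single_subset hx)]
        exact ha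
      unfold l1
      rw [Finsupp.sum_add_index_of_disjoint hd]
      simp
    rw [h1, h2]
    linarith

theorem l1_prj_le (c : E →₀ ℝ) : l1 (prj φ E c) ≤ l1 c := l1_mapDomain_le _ c

theorem l1_perm (g : G) (c : E →₀ ℝ) : l1 (perm G E g c) = l1 c := by
  apply le_antisymm (l1_mapDomain_le _ c)
  have h1 : perm G E g⁻¹ (perm G E g c) = c := by
    rw [← Module.End.mul_apply, ← map_mul, inv_mul_cancel, map_one]
    rfl
  have h2 : l1 (perm G E g⁻¹ (perm G E g c)) ≤ l1 (perm G E g c) := l1_mapDomain_le _ _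
  rwa [h1] at h2

/-- An invariant map factors through the quotient. -/
theorem descend {W : Type} [AddCommGroup W] [Module ℝ W] (M : (E →₀ ℝ) →ₗ[ℝ] W)
    (hM : ∀ (n : N) (c : E →₀ ℝ), M (perm G E (φ n) c) = M c) :
    ∃ M' : (Quotient (orb φ E) →₀ ℝ) →ₗ[ℝ] W, ∀ c, M' (prj φ E c) = M c := by
  refine ⟨Finsupp.linearCombination ℝ
    fun q : Quotient (orb φ E) => M (Finsupp.single q.out 1), fun c => ?_⟩
  have : (Finsupp.linearCombination ℝ
    fun q : Quotient (orb φ E) => M (Finsupp.single q.out 1)) ∘ₗ prj φ E = M := by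
    apply Finsupp.lhom_ext'
    intro x
    apply LinearMap.ext_ring
    simp only [LinearMap.comp_apply, Finsupp.lsingle_apply]
    rw [prj_single, Finsupp.linearCombination_single, one_smul]
    obtain ⟨n, hn⟩ := Quotient.exact (Quotient.out_eq (Quotient.mk (orb φ E) x))
    have h := hM n (Finsupp.single (Quotient.mk (orb φ E) x).out 1)
    rw [perm_single, ← hn] at h
    exact h.symm
  exact LinearMap.congr_fun this c

/-- Every chain of the quotient is the projection of a chain. -/
theorem prj_surj (b : Quotient (orb φ E) →₀ ℝ) : ∃ c, prj φ E c = b := by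
  induction b using Finsupp.induction_linear with
  | zero => exact ⟨0, map_zero _⟩
  | add a b ha hb =>
    obtain ⟨x, hx⟩ := ha
    obtain ⟨y, hy⟩ := hb
    exact ⟨x + y, by rw [map_add, hx, hy]⟩
  | single q r =>
    refine ⟨Finsupp.single q.out r, ?_⟩
    rw [prj_single]
    congr 1
    exact Quotient.out_eq q

end Desc

/-- The coefficient of the boundary of a 4-cell of the quotient. -/
theorem prj_coef {N G : Type} [Group N] [Group G] (φ : N →* G)
    {E E' : Type} [MulAction G E] [MulAction G E']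
    (hfree : ∀ (g : G) (x : E), g • x = x → g = 1)
    (hfree' : ∀ (g : G) (x : E'), g • x = x → g = 1)
    (M : (E' →₀ ℝ) →ₗ[ℝ] (E →₀ ℝ))
    (hM : ∀ (g : G) (c : E' →₀ ℝ), M (perm G E' g c) = perm G E g (M c))
    (e : E) (A : Finset E') (hA : ∀ f, M (Finsupp.single f 1) e ≠ 0 → f ∈ A) (f₀ : E') :
    prj φ E (M (Finsupp.single f₀ 1)) (Quotient.mk (orb φ E) e) =
      ∑ f ∈ A, M (Finsupp.single f 1) e *
        Finsupp.single (Quotient.mk (orb φ E') f₀) (1 : ℝ) (Quotient.mk (orb φ E') f) := by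
  classical
  set c := M (Finsupp.single f₀ 1) with hc
  -- coefficients are equivariant
  have hcoef : ∀ (g : G), c (g • e) = M (Finsupp.single (g⁻¹ • f₀) 1) e := by
    intro g
    have h1 := hM g⁻¹ (Finsupp.single f₀ 1)
    rw [perm_single] at h1
    rw [h1, ← hc]
    have h2 : g⁻¹ • (g • e) = e := by simp
    conv_rhs => rw [← h2]
    show c (g • e) = (c.mapDomain (g⁻¹ • ·)) (g⁻¹ • (g • e))
    rw [Finsupp.mapDomain_apply (MulAction.injective g⁻¹)]
  -- left side
  have hL : prj φ E c (Quotient.mk (orb φ E) e) =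
      ∑ x ∈ c.support.filter (fun x => Quotient.mk (orb φ E) x = Quotient.mk (orb φ E) e), c x := by
    rw [Finset.sum_filter]
    show (c.mapDomain (Quotient.mk (orb φ E))) _ = _
    rw [Finsupp.mapDomain, Finsupp.sum_apply, Finsupp.sum]
    refine Finset.sum_congr rfl fun x _ => ?_
    rw [Finsupp.single_apply]
  have hR : ∑ f ∈ A, M (Finsupp.single f 1) e *
        Finsupp.single (Quotient.mk (orb φ E') f₀) (1 : ℝ) (Quotient.mk (orb φ E') f) =
      ∑ f ∈ A.filter (fun f => M (Finsupp.single f 1) e ≠ 0 ∧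
        Quotient.mk (orb φ E') f₀ = Quotient.mk (orb φ E') f), M (Finsupp.single f 1) e := by
    rw [Finset.sum_filter]
    refine Finset.sum_congr rfl fun f _ => ?_
    rw [Finsupp.single_apply]
    by_cases h1 : M (Finsupp.single f 1) e = 0
    · rw [h1]; simp
    · by_cases h2 : Quotient.mk (orb φ E') f₀ = Quotient.mk (orb φ E') f
      · rw [if_pos h2, if_pos ⟨h1, h2⟩, mul_one]
      · rw [if_neg h2, if_neg (fun h => h2 h.2), mul_zero]
  rw [hL, hR]
  -- the bijection
  have hx : ∀ x ∈ c.support.filter (fun x => Quotient.mk (orb φ E) x = Quotient.mk (orb φ E) e),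
      ∃ n : N, x = φ n • e := by
    intro x hx
    obtain ⟨n, hn⟩ := Quotient.exact (Finset.mem_filter.mp hx).2
    exact ⟨n⁻¹, by rw [hn]; simp⟩
  choose! ν hν using hx
  refine Finset.sum_bij (fun x _ => (φ (ν x))⁻¹ • f₀) ?_ ?_ ?_ ?_
  · intro x hx
    have h1 := hcoef (φ (ν x))
    rw [← hν x hx] at h1
    have h2 : M (Finsupp.single ((φ (ν x))⁻¹ • f₀) 1) e ≠ 0 := by
      rw [← h1]
      exact Finsupp.mem_support_iff.mp (Finset.mem_filter.mp hx).1
    exact Finset.mem_filter.mpr ⟨hA _ h2, h2,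
      Quotient.sound ⟨(ν x)⁻¹, by rw [map_inv]⟩⟩
  · intro x hx y hy hxy
    have h1 : (φ (ν y) * (φ (ν x))⁻¹) • f₀ = f₀ := by
      rw [mul_smul, hxy]
      simp
    have h2 := hfree' _ _ h1
    have h3 : φ (ν y) = φ (ν x) := by
      rw [← mul_inv_eq_one]; exact h2
    rw [hν x hx, hν y hy, h3]
  · intro f hf
    obtain ⟨h1, h2, h3⟩ := Finset.mem_filter.mp hf
    obtain ⟨n, hn⟩ := Quotient.exact h3
    have h4 : c (φ n⁻¹ • e) = M (Finsupp.single f 1) e := by
      rw [hcoef, hn, map_inv, inv_inv]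
    have h5 : φ n⁻¹ • e ∈ c.support.filter
        (fun x => Quotient.mk (orb φ E) x = Quotient.mk (orb φ E) e) := by
      refine Finset.mem_filter.mpr ⟨Finsupp.mem_support_iff.mpr (by rw [h4]; exact h2), ?_⟩
      exact (Quotient.sound ⟨n⁻¹, rfl⟩ : Quotient.mk (orb φ E) e =
        Quotient.mk (orb φ E) (φ n⁻¹ • e)).symm
    refine ⟨φ n⁻¹ • e, h5, ?_⟩
    have h6 := hν _ h5
    have h7 : ((φ (ν (φ n⁻¹ • e)))⁻¹ * φ n⁻¹) • e = e := by
      rw [mul_smul]
      have h := congrArg (fun z => (φ (ν (φ n⁻¹ • e)))⁻¹ • z) h6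
      simp only [inv_smul_smul] at h
      exact h
    have h8 := hfree _ _ h7
    have h9 : φ (ν (φ n⁻¹ • e)) = φ n⁻¹ := by
      have := mul_eq_one_iff_inv_eq.mp h8
      rw [inv_inv] at this
      exact this
    rw [h9, map_inv, inv_inv, hn]
  · intro x hx
    have h1 := hcoef (φ (ν x))
    rw [← hν x hx] at h1
    exact h1

end Pool.Agent.H9Thin
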