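import Pool.Agent.H9Thin.Pseudo

set_option autoImplicit false

/-!
# Bounded functionals detect the image of a two-term boundary
-/

namespace Pool.Agent.H9Thin

/-- `D b e = a₁ e * b (f₁ e) + a₂ e * b (f₂ e)` with coefficients `0` or `±1`. A finitely supported
`w` that is killed by every bounded functional `ψ` with `ψ ∘ D = 0` is of the form `D b`. -/
theorem exists_of_functional {Q₃ Q₄ : Type} (D : (Q₄ →₀ ℝ) →ₗ[ℝ] (Q₃ →₀ ℝ)) (f₁ f₂ : Q₃ → Q₄)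
    (a₁ a₂ : Q₃ → ℝ) (ha₁ : ∀ e, a₁ e = 0 ∨ |a₁ e| = 1) (ha₂ : ∀ e, a₂ e = 0 ∨ |a₂ e| = 1)
    (hD : ∀ b e, D b e = a₁ e * b (f₁ e) + a₂ e * b (f₂ e)) (w : Q₃ →₀ ℝ)
    (hw : ∀ ψ : (Q₃ →₀ ℝ) →ₗ[ℝ] ℝ, (∀ x, |ψ x| ≤ l1 x) → (∀ b, ψ (D b) = 0) → ψ w = 0) :
    ∃ b, D b = w := by
  refine pseudo D f₁ f₂ a₁ a₂ ha₁ ha₂ hD w ?_
  by_contra hcon
  push Not at hcon
  obtain ⟨ε, hε, h⟩ := hcon
  obtain ⟨ψ, h1, h2, h3⟩ := separate (LinearMap.range D) w ε hε (by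
    rintro _ ⟨b, rfl⟩
    exact h b)
  exact h3 (hw ψ h1 fun b => h2 _ ⟨b, rfl⟩)

/-- The same with bounded functions instead of functionals. -/
theorem exists_of_pair {Q3 Q4 : Type} (D : (Q4 →₀ ℝ) →ₗ[ℝ] (Q3 →₀ ℝ)) (f₁ f₂ : Q3 → Q4)
    (a₁ a₂ : Q3 → ℝ) (ha₁ : ∀ e, a₁ e = 0 ∨ |a₁ e| = 1) (ha₂ : ∀ e, a₂ e = 0 ∨ |a₂ e| = 1)
    (hD : ∀ b e, D b e = a₁ e * b (f₁ e) + a₂ e * b (f₂ e)) (w : Q3 →₀ ℝ)
    (hw : ∀ ψ : Q3 → ℝ, (∃ M : ℝ, ∀ e, |ψ e| ≤ M) →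
      (∀ b, (D b).sum (fun e r => r * ψ e) = 0) → w.sum (fun e r => r * ψ e) = 0) :
    ∃ b, D b = w := by
  refine exists_of_functional D f₁ f₂ a₁ a₂ ha₁ ha₂ hD w fun ψ h1 h2 => ?_
  have key : ∀ x : Q3 →₀ ℝ, x.sum (fun e r => r * ψ (Finsupp.single e 1)) = ψ x := by
    intro x
    conv_rhs => rw [← Finsupp.sum_single x]
    rw [Finsupp.sum, Finsupp.sum, map_sum]
    refine Finset.sum_congr rfl fun e _ => ?_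
    rw [← smul_eq_mul, ← map_smul, Finsupp.smul_single, smul_eq_mul, mul_one]
  have h3 := hw (fun e => ψ (Finsupp.single e 1)) ⟨1, fun e => by
    refine (h1 _).trans (le_of_eq ?_)
    simp [l1]⟩ (fun b => by rw [key]; exact h2 b)
  rw [key] at h3
  exact h3

end Pool.Agent.H9Thin
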