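import Pool.Agent.H9Thin.Orbit

set_option autoImplicit false

/-!
# Comparison maps which are equivariant under a subgroup

As in `Lift`, for lists of elements of `G` and a group `Γ` with an injective homomorphism `ι` to `G`.
-/

namespace Pool.Agent.H9Thin

open Pool.Agent.AutDim3

variable {Γ G : Type} [Group Γ] [Group G]

/-- An equivariant map from `G` to the subgroup. -/
theorem exists_root (ι : Γ →* G) (hι : Function.Injective ι) :
    ∃ r : G → Γ, ∀ (g : Γ) (x : G), r (ι g * x) = g * r x := by
  letI : MulAction Γ G :=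
    { smul := fun g x => ι g * x
      one_smul := fun x => by show ι 1 * x = x; simp
      mul_smul := fun g h x => by show ι (g * h) * x = ι g * (ι h * x); simp [mul_assoc] }
  exact exists_choice (G := Γ) (E := G) (fun g x h => by
    have h1 : ι g * x = x := h
    have h2 : ι g = 1 := by simpa using h1
    exact hι (by rw [h2, map_one]))

/-- One step of the lifting from lists to a complex. -/
theorem stepUs (ι : Γ →* G) (hι : Function.Injective ι)
    {V V' : Type} [AddCommGroup V] [Module ℝ V] [AddCommGroup V'] [Module ℝ V']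
    (ρ : Representation ℝ Γ V) (ρ' : Representation ℝ Γ V') (D : V' →ₗ[ℝ] V)
    (hD : ∀ g x, D (ρ' g x) = ρ g (D x)) (A : Ch G →ₗ[ℝ] V)
    (hA : ∀ (g : Γ) (l : List G), A (sg (l.map (ι g * ·))) = ρ g (A (sg l))) (n : ℕ)
    (hex : ∀ l : List G, l.length = n + 1 → ∃ y, D y = A (bd (sg l))) :
    ∃ A' : Ch G →ₗ[ℝ] V', (∀ (g : Γ) (l : List G), A' (sg (l.map (ι g * ·))) = ρ' g (A' (sg l))) ∧
      ∀ l : List G, l.length = n + 1 → D (A' (sg l)) = A (bd (sg l)) := by
  classical
  obtain ⟨r, hr⟩ := exists_root ι hι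
  have hex' : ∀ l : List G, ∃ y, l.length = n + 1 → D y = A (bd (sg l)) := by
    intro l
    by_cases h : l.length = n + 1
    · obtain ⟨y, hy⟩ := hex l h
      exact ⟨y, fun _ => hy⟩
    · exact ⟨0, fun h' => absurd h' h⟩
  choose y hy using hex'
  let f : List G → V' := fun l => match l with
    | [] => 0
    | x :: m => ρ' (r x) (y ((x :: m).map ((ι (r x))⁻¹ * ·)))
  have hf : ∀ l, (Finsupp.linearCombination ℝ f) (sg l) = f l := by
    intro l
    simp [sg, Finsupp.linearCombination_single]
  have hAw : ∀ (g : Γ) (w : Ch G), ρ g (A w) = A (push (ι g * ·) w) := by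
    intro g w
    have := ext_sg (f := (ρ g : V →ₗ[ℝ] V) ∘ₗ A) (g := A ∘ₗ push (ι g * ·)) (by
      intro l
      simp only [LinearMap.comp_apply, push_sg]
      exact (hA g l).symm)
    exact LinearMap.congr_fun this w
  refine ⟨Finsupp.linearCombination ℝ f, ?_, ?_⟩
  · intro g l
    rw [hf, hf]
    match l with
    | [] => simp [f]
    | x :: m =>
      have e1 : ((x :: m).map (ι g * ·)).map ((ι (r (ι g * x)))⁻¹ * ·) =
          (x :: m).map ((ι (r x))⁻¹ * ·) := by
        rw [List.map_map]
        apply List.map_congr_left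
        intro z _
        simp [hr, mul_assoc]
      show ρ' (r (ι g * x)) (y (((x :: m).map (ι g * ·)).map ((ι (r (ι g * x)))⁻¹ * ·))) =
        ρ' g (ρ' (r x) (y ((x :: m).map ((ι (r x))⁻¹ * ·))))
      rw [e1, hr, map_mul]
      rfl
  · intro l hl
    rw [hf]
    match l, hl with
    | x :: m, hl =>
      show D (ρ' (r x) (y ((x :: m).map ((ι (r x))⁻¹ * ·)))) = _
      rw [hD, hy _ (by simpa using hl), hAw, push_bd, push_sg]
      congr 3
      rw [List.map_map]
      conv_rhs => rw [← List.map_id (x :: m)]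
      apply List.map_congr_left
      intro z _
      simp

/-- One step of the lifting from a complex with free bases to lists. -/
theorem stepVs (ι : Γ →* G) {V E : Type} [AddCommGroup V] [Module ℝ V] [MulAction Γ E]
    (hfree : ∀ (g : Γ) (x : E), g • x = x → g = 1)
    (ρ : Representation ℝ Γ V) (D : (E →₀ ℝ) →ₗ[ℝ] V)
    (hD : ∀ g x, D (perm Γ E g x) = ρ g (D x)) (n : ℕ)
    (B : V →ₗ[ℝ] Ch G) (hB : ∀ g x, B (ρ g x) = push (ι g * ·) (B x))
    (hdeg : ∀ x, B x ∈ Deg (G := G) n) (hcyc : ∀ c, bd (B (D c)) = 0) :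
    ∃ B' : (E →₀ ℝ) →ₗ[ℝ] Ch G,
      (∀ g x, B' (perm Γ E g x) = push (ι g * ·) (B' x)) ∧
      (∀ x, B' x ∈ Deg (G := G) (n + 1)) ∧ ∀ c, bd (B' c) = B (D c) := by
  classical
  obtain ⟨r, hr⟩ := exists_choice (G := Γ) hfree
  set f : E → Ch G := fun e => cone (ι (r e)) (B (D (Finsupp.single e 1))) with hf
  have hfs : ∀ e, Finsupp.linearCombination ℝ f (Finsupp.single e 1) = f e := by
    intro e
    simp [Finsupp.linearCombination_single]
  refine ⟨Finsupp.linearCombination ℝ f, ?_, ?_, ?_⟩
  · intro g x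
    have : (Finsupp.linearCombination ℝ f) ∘ₗ (perm Γ E g) =
        push (ι g * ·) ∘ₗ (Finsupp.linearCombination ℝ f) := by
      apply Finsupp.lhom_ext'
      intro e
      apply LinearMap.ext_ring
      simp only [LinearMap.comp_apply, Finsupp.lsingle_apply]
      rw [perm_single, hfs, hfs, hf]
      simp only
      rw [push_cone, hr, map_mul, ← hB, ← hD, perm_single]
    exact LinearMap.congr_fun this x
  · intro x
    induction x using Finsupp.induction_linear with
    | zero => rw [map_zero]; exact Submodule.zero_mem _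
    | add a b ha hb => rw [map_add]; exact Submodule.add_mem _ ha hb
    | single e c =>
      rw [Finsupp.linearCombination_single]
      exact Submodule.smul_mem _ _ (cone_mem_deg _ (hdeg _))
  · intro c
    have : bd ∘ₗ (Finsupp.linearCombination ℝ f) = B ∘ₗ D := by
      apply Finsupp.lhom_ext'
      intro e
      apply LinearMap.ext_ring
      simp only [LinearMap.comp_apply, Finsupp.lsingle_apply]
      rw [hfs, hf]
      simp only
      rw [bd_cone, hcyc, map_zero, sub_zero]
    exact LinearMap.congr_fun this c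

/-- One step of the homotopy between a map of lists and the identity. -/
theorem stepHs (ι : Γ →* G) (T T' H : Ch G →ₗ[ℝ] Ch G) (n : ℕ)
    (hT' : ∀ (g : Γ) (l : List G), T' (sg (l.map (ι g * ·))) = push (ι g * ·) (T' (sg l)))
    (hdT' : ∀ l : List G, l.length = n + 1 → T' (sg l) ∈ Deg (G := G) (n + 1))
    (hH : ∀ (g : Γ) (l : List G), H (sg (l.map (ι g * ·))) = push (ι g * ·) (H (sg l)))
    (hdH : ∀ l : List G, l.length = n → H (sg l) ∈ Deg (G := G) (n + 1))
    (hlink : ∀ l : List G, l.length = n + 1 → bd (T' (sg l)) = T (bd (sg l)))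
    (hhom : ∀ v ∈ Deg (G := G) n, bd v = 0 → T v - v = bd (H v)) :
    ∃ H' : Ch G →ₗ[ℝ] Ch G,
      (∀ (g : Γ) (l : List G), H' (sg (l.map (ι g * ·))) = push (ι g * ·) (H' (sg l))) ∧
      (∀ l : List G, l.length = n + 1 → H' (sg l) ∈ Deg (G := G) (n + 2)) ∧
      (∀ l : List G, l.length = n + 1 → T' (sg l) - sg l = bd (H' (sg l)) + H (bd (sg l))) ∧
      (∀ v ∈ Deg (G := G) (n + 1), bd v = 0 → T' v - v = bd (H' v)) := by
  classical
  let f : List G → Ch G := fun l => match l with
    | [] => 0
    | x :: m => cone x (T' (sg (x :: m)) - sg (x :: m) - H (bd (sg (x :: m))))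
  have hf : ∀ l, (Finsupp.linearCombination ℝ f) (sg l) = f l := by
    intro l
    simp [sg, Finsupp.linearCombination_single]
  have hHw : ∀ (g : Γ) (w : Ch G), H (push (ι g * ·) w) = push (ι g * ·) (H w) := by
    intro g w
    have := ext_sg (f := H ∘ₗ push (ι g * ·)) (g := push (ι g * ·) ∘ₗ H) (by
      intro l
      simp only [LinearMap.comp_apply, push_sg]
      exact hH g l)
    exact LinearMap.congr_fun this w
  have hbdH : ∀ l : List G, l.length = n + 1 → H (bd (sg l)) ∈ Deg (G := G) (n + 1) := by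
    intro l hl
    exact map_mem_of_sg H (fun m hm => hdH m hm) (bd_sg_mem_deg hl)
  have key : ∀ l : List G, l.length = n + 1 →
      T' (sg l) - sg l = bd ((Finsupp.linearCombination ℝ f) (sg l)) + H (bd (sg l)) := by
    intro l hl
    rw [hf]
    match l, hl with
    | x :: m, hl =>
      simp only [f]
      have h0 : bd (T' (sg (x :: m)) - sg (x :: m) - H (bd (sg (x :: m)))) = 0 := by
        rw [map_sub, map_sub, hlink _ hl, ← hhom _ (bd_sg_mem_deg hl) (bd_bd _), sub_self]
      rw [bd_cone, h0, map_zero]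
      abel
  refine ⟨Finsupp.linearCombination ℝ f, ?_, ?_, key, ?_⟩
  · intro g l
    rw [hf, hf]
    match l with
    | [] => simp [f]
    | x :: m =>
      have e1 := hT' g (x :: m)
      simp only [f, List.map_cons] at e1 ⊢
      rw [push_cone, map_sub (push (ι g * ·)), map_sub (push (ι g * ·)), push_sg, ← hHw, push_bd,
        push_sg, ← e1]
      simp only [List.map_cons]
  · intro l hl
    rw [hf]
    match l, hl with
    | x :: m, hl =>
      simp only [f]
      exact cone_mem_deg _ (Submodule.sub_mem _ (Submodule.sub_mem _ (hdT' _ hl)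
        (sg_mem_deg hl)) (hbdH _ hl))
  · intro v hv hv0
    have h1 : (T' - (LinearMap.id : Ch G →ₗ[ℝ] Ch G)) v =
        (bd ∘ₗ (Finsupp.linearCombination ℝ f) + H ∘ₗ bd) v := by
      refine eq_of_sg _ _ (fun l hl => ?_) hv
      simp only [LinearMap.sub_apply, LinearMap.id_apply, LinearMap.add_apply,
        LinearMap.comp_apply]
      exact key l hl
    simp only [LinearMap.sub_apply, LinearMap.id_apply, LinearMap.add_apply,
        LinearMap.comp_apply, hv0, map_zero, add_zero] at h1
    exact h1

/-- A function invariant under a subgroup of finite index is bounded on lists of bounded length and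
diameter. -/
theorem bounded_of_sub (C : Comb G) (ι : Γ →* G) (hfi : ι.range.FiniteIndex) (f : List G → ℝ)
    (hf : ∀ (g : Γ) (l : List G), l.length = 4 → f (l.map (ι g * ·)) = f l) (R : ℕ) :
    ∃ M : ℝ, ∀ l : List G, l.length = 4 → C.Small R l → f l ≤ M := by
  classical
  -- a finite set of representatives
  obtain ⟨S, hS⟩ : ∃ S : Finset G, ∀ x : G, ∃ (g : Γ) (s : G), s ∈ S ∧ x = ι g * s := by
    haveI : Finite (Quotient (QuotientGroup.rightRel ι.range)) := by
      have := Subgroup.finite_quotient_of_finiteIndex (H := ι.range)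
      exact Finite.of_equiv _ (QuotientGroup.quotientRightRelEquivQuotientLeftRel ι.range).symm
    haveI := Fintype.ofFinite (Quotient (QuotientGroup.rightRel ι.range))
    refine ⟨Finset.univ.image (fun q : Quotient (QuotientGroup.rightRel ι.range) => q.out), ?_⟩
    intro x
    have := Quotient.exact (Quotient.out_eq (Quotient.mk (QuotientGroup.rightRel ι.range) x))
    obtain ⟨g, hg⟩ := QuotientGroup.rightRel_apply.mp this
    refine ⟨g, Quotient.out (Quotient.mk (QuotientGroup.rightRel ι.range) x),
      Finset.mem_image.mpr ⟨_, Finset.mem_univ _, rfl⟩, ?_⟩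
    rw [hg]
    group
  obtain ⟨L, hL⟩ : ∃ L : ℕ, ∀ s ∈ S, C.len s ≤ L :=
    ⟨S.sup C.len, fun s hs => Finset.le_sup (f := C.len) hs⟩
  have hfin : {l : List G | l.length = 4 ∧ ∀ p ∈ l, C.len p ≤ L + R}.Finite := by
    have hb := C.fin_ball (L + R)
    set B : Finset G := hb.toFinset with hB
    have : {l : List G | l.length = 4 ∧ ∀ p ∈ l, C.len p ≤ L + R} ⊆
        (fun t : G × G × G × G => [t.1, t.2.1, t.2.2.1, t.2.2.2]) ''
          ((B ×ˢ B ×ˢ B ×ˢ B : Finset (G × G × G × G)) : Set (G × G × G × G)) := by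
      rintro l ⟨hl, hp⟩
      match l, hl with
      | [p, q, r, s], _ =>
        refine ⟨(p, q, r, s), ?_, rfl⟩
        simp only [Finset.coe_product, Set.mem_prod, Finset.mem_coe, hB, Set.Finite.mem_toFinset,
          Set.mem_ofPred_eq]
        exact ⟨hp p (by simp), hp q (by simp), hp r (by simp), hp s (by simp)⟩
    exact (Set.Finite.image _ (Finset.finite_toSet _)).subset this
  obtain ⟨M, hM⟩ := (hfin.image f).bddAbove
  refine ⟨M, ?_⟩
  intro l hl hs
  match l, hl with
  | p :: l', hl =>
    obtain ⟨g, s, hsS, hps⟩ := hS p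
    have h1 := hf g⁻¹ (p :: l') hl
    rw [← h1]
    apply hM
    refine ⟨_, ⟨?_, ?_⟩, rfl⟩
    · simpa using hl
    · intro q hq
      rw [List.mem_map] at hq
      obtain ⟨q', hq', rfl⟩ := hq
      have h2 : ι g⁻¹ * q' = s * (p⁻¹ * q') := by
        rw [hps, map_inv]
        group
      rw [h2]
      exact (C.len_mul _ _).trans (add_le_add (hL s hsS) (hs p (by simp) q' hq'))

end Pool.Agent.H9Thin
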