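import Pool.Agent.H9Thin.Main

set_option autoImplicit false

/-!
# Nilpotent subgroups of automatic groups with a virtual thin complex
-/

namespace Pool.Agent.H9Thin

open Pool.Agent.AutDim3

/-- The dilation in terms of powers. -/
theorem dil_eq (t : ℕ) (n : Heis) : Heis.dil t n =
    (⟨0, n.y, 0⟩ : Heis) ^ t * (⟨n.x, 0, 0⟩ : Heis) ^ t * (⟨0, 0, t * n.z⟩ : Heis) ^ t := by
  have h1 : ∀ (y : ℤ) (k : ℕ), (⟨0, y, 0⟩ : Heis) ^ k = ⟨0, k * y, 0⟩ := by
    intro y k
    induction k with
    | zero => ext <;> simp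
    | succ k ih => rw [pow_succ, ih]; ext <;> simp <;> ring
  have h2 : ∀ (x : ℤ) (k : ℕ), (⟨x, 0, 0⟩ : Heis) ^ k = ⟨k * x, 0, 0⟩ := by
    intro x k
    induction k with
    | zero => ext <;> simp
    | succ k ih => rw [pow_succ, ih]; ext <;> simp <;> ring
  have h3 : ∀ (z : ℤ) (k : ℕ), (⟨0, 0, z⟩ : Heis) ^ k = ⟨0, 0, k * z⟩ := by
    intro z k
    induction k with
    | zero => ext <;> simp
    | succ k ih => rw [pow_succ, ih]; ext <;> simp <;> ring
  rw [h1, h2, h3]
  ext
  · simp [Heis.dil]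
  · simp [Heis.dil]
  · simp [Heis.dil]
    ring

/-- A positive dilation is injective. -/
theorem dil_injective {t : ℕ} (ht : t ≠ 0) : Function.Injective (Heis.dil t) := by
  intro g h hgh
  have h0 : (t : ℤ) ≠ 0 := by exact_mod_cast ht
  have h1 := congrArg Heis.x hgh
  have h2 := congrArg Heis.y hgh
  have h3 := congrArg Heis.z hgh
  simp only [Heis.dil, MonoidHom.coe_mk, OneHom.coe_mk] at h1 h2 h3
  ext
  · exact mul_left_cancel₀ h0 h1
  · exact mul_left_cancel₀ h0 h2
  · exact mul_left_cancel₀ (pow_ne_zero 2 h0) h3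

/-- An automatic group with a subgroup of finite index that has a thin complex contains no
Heisenberg group. -/
theorem no_heis_thin {G : Type} [Group G] (hG : IsAutomatic G) (G₁ : Subgroup G)
    (hi : G₁.index ≠ 0) (K : ThinComplex G₁) (φ : Heis →* G) (hφ : Function.Injective φ) :
    False := by
  have hfi : G₁.FiniteIndex := ⟨hi⟩
  set M := G₁.normalCore with hM
  have hMi : M.index ≠ 0 := (Subgroup.finiteIndex_normalCore (H := G₁)).index_ne_zero
  have hpow : ∀ g : G, g ^ M.index ∈ M := fun g => Subgroup.pow_index_mem M g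
  have hmem : ∀ n, φ (Heis.dil M.index n) ∈ G₁ := by
    intro n
    apply G₁.normalCore_le
    rw [dil_eq, map_mul, map_mul, map_pow, map_pow, map_pow]
    exact M.mul_mem (M.mul_mem (hpow _) (hpow _)) (hpow _)
  set φ₁ : Heis →* G₁ := (φ.comp (Heis.dil M.index)).codRestrict G₁ hmem with hφ₁
  have hinj : Function.Injective φ₁ := by
    intro g h hgh
    have h1 : φ (Heis.dil M.index g) = φ (Heis.dil M.index h) := congrArg Subtype.val hgh
    exact dil_injective hMi (hφ h1)
  refine no_heis_sub hG G₁.subtype G₁.subtype_injective ?_ K φ₁ hinj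
  rw [Subgroup.range_subtype]
  exact hfi

/-- Nilpotent subgroups that are finitely generated or virtually torsion-free are virtually
abelian. -/
theorem virtually_abelian_thin {G : Type} [Group G] (hG : IsAutomatic G) (G₁ : Subgroup G)
    (hi : G₁.index ≠ 0) (K : ThinComplex G₁) (H : Subgroup G) (hH : Group.IsNilpotent H)
    (h : H.FG ∨ ∃ T : Subgroup G, T.relIndex H ≠ 0 ∧ ∀ g ∈ T, g ≠ 1 → ¬ IsOfFinOrder g) :
    ∃ A : Subgroup G, A ≤ H ∧ (A.subgroupOf H).index ≠ 0 ∧
      ∀ a ∈ A, ∀ b ∈ A, a * b = b * a := by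
  rcases h with hfg | ⟨T, hT, ht⟩
  · obtain ⟨B, hB, hBc⟩ := virtually_abelian_of_fg H ((Group.fg_iff_subgroup_fg H).mpr hfg)
      (fun φ hφ => no_heis_thin hG G₁ hi K (H.subtype.comp φ) (by
        rw [MonoidHom.coe_comp]
        exact Subtype.val_injective.comp hφ))
    refine ⟨B.map H.subtype, Subgroup.map_subtype_le B, ?_, ?_⟩
    · have : (B.map H.subtype).subgroupOf H = B :=
        Subgroup.comap_map_eq_self_of_injective H.subtype_injective B
      rw [this]
      exact hB
    · rintro _ ⟨a, ha, rfl⟩ _ ⟨b, hb, rfl⟩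
      rw [← map_mul, ← map_mul, hBc a ha b hb]
  · refine ⟨T ⊓ H, inf_le_right, ?_, ?_⟩
    · have : (T ⊓ H).subgroupOf H = T.subgroupOf H := by
        rw [Subgroup.inf_subgroupOf_right]
      rw [this]
      exact hT
    · by_contra hcon
      push Not at hcon
      obtain ⟨a, ha, b, hb, hab⟩ := hcon
      have hnil : Group.IsNilpotent (T ⊓ H : Subgroup G) := by
        have : Group.IsNilpotent ((T ⊓ H).subgroupOf H) := inferInstance
        exact (Group.isNilpotent_congr
          (Subgroup.subgroupOfEquivOfLe (inf_le_right : T ⊓ H ≤ H))).mp this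
      obtain ⟨φ, hφ⟩ := exists_heis (N := (T ⊓ H : Subgroup G))
        (by
          intro g hg hfin
          refine ht g.1 g.2.1 ?_ ?_
          · intro h; exact hg (Subtype.ext h)
          · exact (T ⊓ H : Subgroup G).subtype.isOfFinOrder hfin)
        ⟨⟨a, ha⟩, ⟨b, hb⟩, fun h => hab (by simpa using congrArg Subtype.val h)⟩
      exact no_heis_thin hG G₁ hi K ((T ⊓ H : Subgroup G).subtype.comp φ) (by
        rw [MonoidHom.coe_comp]
        exact Subtype.val_injective.comp hφ)

end Pool.Agent.H9Thin
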