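import Pool.Agent.AutDim3.Main

set_option autoImplicit false

/-!
# Comparison of the homogeneous chains with a complex of free modules

Three step lemmas: lifting from lists to a complex (`stepU`), from a complex with free bases to
lists (`stepV`), homotopy between two maps of lists (`stepH`).
-/

namespace Pool.Agent.H9Thin

open Pool.Agent.AutDim3

variable {G : Type} [Group G]

/-- The action of `G` on the finitely supported functions on a `G`-set. -/
noncomputable def perm (G E : Type) [Group G] [MulAction G E] :
    Representation ℝ G (E →₀ ℝ) where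
  toFun g := Finsupp.lmapDomain ℝ ℝ (g • ·)
  map_one' := by
    apply Finsupp.lhom_ext
    intro x r
    simp
  map_mul' g h := by
    apply Finsupp.lhom_ext
    intro x r
    simp [mul_smul]

theorem perm_single {E : Type} [MulAction G E] (g : G) (x : E) (r : ℝ) :
    perm G E g (Finsupp.single x r) = Finsupp.single (g • x) r := by
  simp [perm]

/-- One step of the lifting from lists to a complex. -/
theorem stepU {V V' : Type} [AddCommGroup V] [Module ℝ V] [AddCommGroup V'] [Module ℝ V']
    (ρ : Representation ℝ G V) (ρ' : Representation ℝ G V') (D : V' →ₗ[ℝ] V)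
    (hD : ∀ g x, D (ρ' g x) = ρ g (D x)) (A : Ch G →ₗ[ℝ] V)
    (hA : ∀ (g : G) (l : List G), A (sg (l.map (g * ·))) = ρ g (A (sg l))) (n : ℕ)
    (hex : ∀ l : List G, l.length = n + 1 → ∃ y, D y = A (bd (sg l))) :
    ∃ A' : Ch G →ₗ[ℝ] V', (∀ (g : G) (l : List G), A' (sg (l.map (g * ·))) = ρ' g (A' (sg l))) ∧
      ∀ l : List G, l.length = n + 1 → D (A' (sg l)) = A (bd (sg l)) := by
  classical
  have hex' : ∀ l : List G, ∃ y, l.length = n + 1 → D y = A (bd (sg l)) := by
    intro l
    by_cases h : l.length = n + 1
    · obtain ⟨y, hy⟩ := hex l h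
      exact ⟨y, fun _ => hy⟩
    · exact ⟨0, fun h' => absurd h' h⟩
  choose y hy using hex'
  let f : List G → V' := fun l => match l with
    | [] => 0
    | x :: m => ρ' x (y (1 :: m.map (x⁻¹ * ·)))
  have hf : ∀ l, (Finsupp.linearCombination ℝ f) (sg l) = f l := by
    intro l
    simp [sg, Finsupp.linearCombination_single]
  refine ⟨Finsupp.linearCombination ℝ f, ?_, ?_⟩
  · intro g l
    rw [hf, hf]
    match l with
    | [] => simp [f]
    | x :: m =>
      simp only [f, List.map_cons, List.map_map]
      have : m.map ((fun z => (g * x)⁻¹ * z) ∘ fun z => g * z) = m.map (x⁻¹ * ·) := by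
        apply List.map_congr_left
        intro z _
        simp [mul_assoc]
      rw [this, map_mul]
      rfl
  · intro l hl
    rw [hf]
    match l, hl with
    | x :: m, hl =>
      simp only [f]
      rw [hD, hy (1 :: m.map (x⁻¹ * ·)) (by simpa using hl)]
      have hAw : ∀ w : Ch G, ρ x (A w) = A (push (x * ·) w) := by
        intro w
        have := ext_sg (f := (ρ x : V →ₗ[ℝ] V) ∘ₗ A) (g := A ∘ₗ push (x * ·)) (by
          intro l
          simp only [LinearMap.comp_apply, push_sg]
          exact (hA x l).symm)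
        exact LinearMap.congr_fun this w
      rw [hAw, push_bd, push_sg]
      congr 3
      simp only [List.map_cons, mul_one, List.map_map]
      congr 1
      conv_rhs => rw [← List.map_id m]
      apply List.map_congr_left
      intro z _
      simp

/-- Equivariance of a map out of lists, on all chains. -/
theorem equiv_apply {V : Type} [AddCommGroup V] [Module ℝ V] (ρ : Representation ℝ G V)
    (A : Ch G →ₗ[ℝ] V) (hA : ∀ (g : G) (l : List G), A (sg (l.map (g * ·))) = ρ g (A (sg l)))
    (g : G) (w : Ch G) : A (push (g * ·) w) = ρ g (A w) := by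
  have := ext_sg (f := A ∘ₗ push (g * ·)) (g := (ρ g : V →ₗ[ℝ] V) ∘ₗ A) (by
    intro l
    simp only [LinearMap.comp_apply, push_sg]
    exact hA g l)
  exact LinearMap.congr_fun this w

/-- An equivariant choice of a group element for the points of a free set. -/
theorem exists_choice {E : Type} [MulAction G E] (hfree : ∀ (g : G) (x : E), g • x = x → g = 1) :
    ∃ r : E → G, ∀ (g : G) (x : E), r (g • x) = g * r x := by
  classical
  have h1 : ∀ x : E, ∃ g : G, x = g • (Quotient.out (Quotient.mk (MulAction.orbitRel G E) x)) := by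
    intro x
    have := Quotient.exact (Quotient.out_eq (Quotient.mk (MulAction.orbitRel G E) x))
    have h2 : (Quotient.out (Quotient.mk (MulAction.orbitRel G E) x)) ∈ MulAction.orbit G x := this
    obtain ⟨g, hg⟩ := h2
    refine ⟨g⁻¹, ?_⟩
    rw [← hg]
    simp
  choose r hr using h1
  refine ⟨r, ?_⟩
  intro g x
  have e1 : Quotient.mk (MulAction.orbitRel G E) (g • x) = Quotient.mk (MulAction.orbitRel G E) x := by
    apply Quotient.sound
    exact ⟨g, rfl⟩
  have e2 := hr (g • x)
  rw [e1] at e2
  have e3 : g • x = (g * r x) • Quotient.out (Quotient.mk (MulAction.orbitRel G E) x) := by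
    rw [mul_smul, ← hr x]
  have e4 := e2.symm.trans e3
  have e5 : ((g * r x)⁻¹ * r (g • x)) • Quotient.out (Quotient.mk (MulAction.orbitRel G E) x) =
      Quotient.out (Quotient.mk (MulAction.orbitRel G E) x) := by
    rw [mul_smul, e4, smul_smul, inv_mul_cancel, one_smul]
  have e6 := hfree _ _ e5
  have e7 : (g * r x) * ((g * r x)⁻¹ * r (g • x)) = (g * r x) * 1 := by rw [e6]
  simpa [mul_assoc] using e7

/-- One step of the lifting from a complex with free bases to lists. -/
theorem stepV {V E : Type} [AddCommGroup V] [Module ℝ V] [MulAction G E]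
    (hfree : ∀ (g : G) (x : E), g • x = x → g = 1)
    (ρ : Representation ℝ G V) (D : (E →₀ ℝ) →ₗ[ℝ] V)
    (hD : ∀ g x, D (perm G E g x) = ρ g (D x)) (n : ℕ)
    (B : V →ₗ[ℝ] Ch G) (hB : ∀ g x, B (ρ g x) = push (g * ·) (B x))
    (hdeg : ∀ x, B x ∈ Deg (G := G) n) (hcyc : ∀ c, bd (B (D c)) = 0) :
    ∃ B' : (E →₀ ℝ) →ₗ[ℝ] Ch G,
      (∀ g x, B' (perm G E g x) = push (g * ·) (B' x)) ∧
      (∀ x, B' x ∈ Deg (G := G) (n + 1)) ∧ ∀ c, bd (B' c) = B (D c) := by
  classical
  obtain ⟨r, hr⟩ := exists_choice (G := G) hfree
  set f : E → Ch G := fun e => cone (r e) (B (D (Finsupp.single e 1))) with hf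
  have hfs : ∀ e, Finsupp.linearCombination ℝ f (Finsupp.single e 1) = f e := by
    intro e
    simp [Finsupp.linearCombination_single]
  refine ⟨Finsupp.linearCombination ℝ f, ?_, ?_, ?_⟩
  · intro g x
    have : (Finsupp.linearCombination ℝ f) ∘ₗ (perm G E g) =
        push (g * ·) ∘ₗ (Finsupp.linearCombination ℝ f) := by
      apply Finsupp.lhom_ext'
      intro e
      apply LinearMap.ext_ring
      simp only [LinearMap.comp_apply, Finsupp.lsingle_apply]
      rw [perm_single, hfs, hfs, hf]
      simp only
      rw [push_cone, hr, ← hB, ← hD, perm_single]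
    exact LinearMap.congr_fun this x
  · intro x
    induction x using Finsupp.induction_linear with
    | zero => rw [map_zero]; exact Submodule.zero_mem _
    | add a b ha hb => rw [map_add]; exact Submodule.add_mem _ ha hb
    | single e c =>
      rw [Finsupp.linearCombination_single]
      exact Submodule.smul_mem _ _ (cone_mem_deg _ (hdeg _))
  · intro c
    have : bd ∘ₗ (Finsupp.linearCombination ℝ f) = B ∘ₗ D := by
      apply Finsupp.lhom_ext'
      intro e
      apply LinearMap.ext_ring
      simp only [LinearMap.comp_apply, Finsupp.lsingle_apply]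
      rw [hfs, hf]
      simp only
      rw [bd_cone, hcyc, map_zero, sub_zero]
    exact LinearMap.congr_fun this c

/-- One step of the homotopy between a map of lists and the identity. -/
theorem stepH (T T' H : Ch G →ₗ[ℝ] Ch G) (n : ℕ)
    (hT' : ∀ (g : G) (l : List G), T' (sg (l.map (g * ·))) = push (g * ·) (T' (sg l)))
    (hdT' : ∀ l : List G, l.length = n + 1 → T' (sg l) ∈ Deg (G := G) (n + 1))
    (hH : ∀ (g : G) (l : List G), H (sg (l.map (g * ·))) = push (g * ·) (H (sg l)))
    (hdH : ∀ l : List G, l.length = n → H (sg l) ∈ Deg (G := G) (n + 1))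
    (hlink : ∀ l : List G, l.length = n + 1 → bd (T' (sg l)) = T (bd (sg l)))
    (hhom : ∀ v ∈ Deg (G := G) n, bd v = 0 → T v - v = bd (H v)) :
    ∃ H' : Ch G →ₗ[ℝ] Ch G,
      (∀ (g : G) (l : List G), H' (sg (l.map (g * ·))) = push (g * ·) (H' (sg l))) ∧
      (∀ l : List G, l.length = n + 1 → H' (sg l) ∈ Deg (G := G) (n + 2)) ∧
      (∀ l : List G, l.length = n + 1 → T' (sg l) - sg l = bd (H' (sg l)) + H (bd (sg l))) ∧
      (∀ v ∈ Deg (G := G) (n + 1), bd v = 0 → T' v - v = bd (H' v)) := by
  classical
  let f : List G → Ch G := fun l => match l with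
    | [] => 0
    | x :: m => cone x (T' (sg (x :: m)) - sg (x :: m) - H (bd (sg (x :: m))))
  have hf : ∀ l, (Finsupp.linearCombination ℝ f) (sg l) = f l := by
    intro l
    simp [sg, Finsupp.linearCombination_single]
  have hHw : ∀ (g : G) (w : Ch G), H (push (g * ·) w) = push (g * ·) (H w) := by
    intro g w
    have := ext_sg (f := H ∘ₗ push (g * ·)) (g := push (g * ·) ∘ₗ H) (by
      intro l
      simp only [LinearMap.comp_apply, push_sg]
      exact hH g l)
    exact LinearMap.congr_fun this w
  have hbdH : ∀ l : List G, l.length = n + 1 → H (bd (sg l)) ∈ Deg (G := G) (n + 1) := by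
    intro l hl
    exact map_mem_of_sg H (fun m hm => hdH m hm) (bd_sg_mem_deg hl)
  have key : ∀ l : List G, l.length = n + 1 →
      T' (sg l) - sg l = bd ((Finsupp.linearCombination ℝ f) (sg l)) + H (bd (sg l)) := by
    intro l hl
    rw [hf]
    match l, hl with
    | x :: m, hl =>
      simp only [f]
      have h0 : bd (T' (sg (x :: m)) - sg (x :: m) - H (bd (sg (x :: m)))) = 0 := by
        rw [map_sub, map_sub, hlink _ hl, ← hhom _ (bd_sg_mem_deg hl) (bd_bd _), sub_self]
      rw [bd_cone, h0, map_zero]
      abel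
  refine ⟨Finsupp.linearCombination ℝ f, ?_, ?_, key, ?_⟩
  · intro g l
    rw [hf, hf]
    match l with
    | [] => simp [f]
    | x :: m =>
      have e1 := hT' g (x :: m)
      simp only [f, List.map_cons] at e1 ⊢
      rw [push_cone, map_sub (push (g * ·)), map_sub (push (g * ·)), push_sg, ← hHw, push_bd,
        push_sg, ← e1]
      simp only [List.map_cons]
  · intro l hl
    rw [hf]
    match l, hl with
    | x :: m, hl =>
      simp only [f]
      exact cone_mem_deg _ (Submodule.sub_mem _ (Submodule.sub_mem _ (hdT' _ hl)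
        (sg_mem_deg hl)) (hbdH _ hl))
  · intro v hv hv0
    have h1 : (T' - (LinearMap.id : Ch G →ₗ[ℝ] Ch G)) v =
        (bd ∘ₗ (Finsupp.linearCombination ℝ f) + H ∘ₗ bd) v := by
      refine eq_of_sg _ _ (fun l hl => ?_) hv
      simp only [LinearMap.sub_apply, LinearMap.id_apply, LinearMap.add_apply,
        LinearMap.comp_apply]
      exact key l hl
    simp only [LinearMap.sub_apply, LinearMap.id_apply, LinearMap.add_apply,
        LinearMap.comp_apply, hv0, map_zero, add_zero] at h1
    exact h1

end Pool.Agent.H9Thin
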