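import Pool.Agent.H9Thin.LiftSub
import Pool.Agent.H9Thin.Pair
import Pool.Agent.H9Thin.Defs

set_option autoImplicit false

/-!
# Automatic groups with a thin complex contain no Heisenberg group
-/

namespace Pool.Agent.H9Thin

open Pool.Agent.AutDim3

attribute [local instance] ThinComplex.act

/-- A linear map on chains of degree `n` given on lists. -/
theorem deg_ext {G V : Type} [AddCommGroup V] [Module ℝ V] (f g : Ch G →ₗ[ℝ] V) (n : ℕ)
    (h : ∀ l : List G, l.length = n → f (sg l) = g (sg l)) {w : Ch G}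
    (hw : w ∈ Deg (G := G) n) : f w = g w :=
  eq_of_sg f g (fun l hl => h l hl) hw

variable {Γ G : Type} [Group Γ] [Group G]

/-- The comparison maps in the degrees of lists with at most four entries. -/
theorem exists_maps (ι : Γ →* G) (hι : Function.Injective ι) (K : ThinComplex Γ) :
    ∃ (U : Ch G →ₗ[ℝ] (K.E 3 →₀ ℝ)) (B : (K.E 3 →₀ ℝ) →ₗ[ℝ] Ch G)
      (B' : (K.E 4 →₀ ℝ) →ₗ[ℝ] Ch G) (H₄ H₃ : Ch G →ₗ[ℝ] Ch G),
      (∀ (g : Γ) (l : List G), U (sg (l.map (ι g * ·))) = perm Γ (K.E 3) g (U (sg l))) ∧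
      (∀ l : List G, l.length = 5 → ∃ y, K.d 3 y = U (bd (sg l))) ∧
      (∀ g x, B (perm Γ (K.E 3) g x) = push (ι g * ·) (B x)) ∧
      (∀ x, B' x ∈ Deg (G := G) 5) ∧ (∀ c, bd (B' c) = B (K.d 3 c)) ∧
      (∀ (g : Γ) (l : List G), H₃ (sg (l.map (ι g * ·))) = push (ι g * ·) (H₃ (sg l))) ∧
      (∀ l : List G, l.length = 4 → H₄ (sg l) ∈ Deg (G := G) 5) ∧
      (∀ l : List G, l.length = 4 → B (U (sg l)) - sg l = bd (H₄ (sg l)) + H₃ (bd (sg l))) := by
  classical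
  -- the augmentation
  set D₀ : (K.E 0 →₀ ℝ) →ₗ[ℝ] ℝ := Finsupp.linearCombination ℝ (fun _ => (1 : ℝ)) with hD₀
  have hD₀s : ∀ c : K.E 0 →₀ ℝ, D₀ c = c.sum fun _ r => r := by
    intro c
    simp [hD₀, Finsupp.linearCombination_apply]
  set ρ₀ : Representation ℝ Γ ℝ := Representation.trivial ℝ Γ ℝ with hρ₀
  have hρ₀a : ∀ (g : Γ) (x : ℝ), ρ₀ g x = x := fun g x => rfl
  have hD₀e : ∀ g x, D₀ (perm Γ (K.E 0) g x) = ρ₀ g (D₀ x) := by
    intro g x
    rw [hρ₀a]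
    have : D₀ ∘ₗ (perm Γ (K.E 0) g) = D₀ := by
      apply Finsupp.lhom_ext
      intro y r
      rw [LinearMap.comp_apply, perm_single]
      simp [hD₀, Finsupp.linearCombination_single]
    exact LinearMap.congr_fun this x
  have hde : ∀ i ≤ 3, ∀ g x, K.d i (perm Γ (K.E (i + 1)) g x) = perm Γ (K.E i) g (K.d i x) :=
    fun i hi g x => K.equivariant i hi g x
  -- lifting
  set U₀ : Ch G →ₗ[ℝ] ℝ := Finsupp.linearCombination ℝ (fun _ => (1 : ℝ)) with hU₀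
  have hU₀s : ∀ l : List G, U₀ (sg l) = 1 := by
    intro l
    simp [hU₀, sg, Finsupp.linearCombination_single]
  obtain ⟨U₁, hU₁e, hU₁⟩ := stepUs ι hι ρ₀ (perm Γ (K.E 0)) D₀ hD₀e U₀
    (fun g l => by rw [hU₀s, hU₀s, hρ₀a]) 0 (by
      intro l hl
      obtain ⟨x⟩ := K.nonempty
      refine ⟨Finsupp.single x 1, ?_⟩
      match l, hl with
      | [y], _ =>
        rw [bd_cons, bd_nil, map_zero, sub_zero, hU₀s]
        simp [hD₀, Finsupp.linearCombination_single])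
  have hU₁w : ∀ w ∈ Deg (G := G) 1, D₀ (U₁ w) = U₀ (bd w) := fun w hw =>
    deg_ext (D₀ ∘ₗ U₁) (U₀ ∘ₗ bd) 1 hU₁ hw
  obtain ⟨U₂, hU₂e, hU₂⟩ := stepUs ι hι (perm Γ (K.E 0)) (perm Γ (K.E 1)) (K.d 0)
    (hde 0 (by norm_num)) U₁ hU₁e 1 (by
      intro l hl
      apply (K.exact_zero _).mp
      rw [← hD₀s, hU₁w _ (bd_sg_mem_deg hl), bd_bd, map_zero])
  have hU₂w : ∀ w ∈ Deg (G := G) 2, K.d 0 (U₂ w) = U₁ (bd w) := fun w hw =>
    deg_ext (K.d 0 ∘ₗ U₂) (U₁ ∘ₗ bd) 2 hU₂ hw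
  obtain ⟨U₃, hU₃e, hU₃⟩ := stepUs ι hι (perm Γ (K.E 1)) (perm Γ (K.E 2)) (K.d 1)
    (hde 1 (by norm_num)) U₂ hU₂e 2 (by
      intro l hl
      apply (K.exact 0 (by norm_num) _).mp
      rw [hU₂w _ (bd_sg_mem_deg hl), bd_bd, map_zero])
  have hU₃w : ∀ w ∈ Deg (G := G) 3, K.d 1 (U₃ w) = U₂ (bd w) := fun w hw =>
    deg_ext (K.d 1 ∘ₗ U₃) (U₂ ∘ₗ bd) 3 hU₃ hw
  obtain ⟨U₄, hU₄e, hU₄⟩ := stepUs ι hι (perm Γ (K.E 2)) (perm Γ (K.E 3)) (K.d 2)
    (hde 2 (by norm_num)) U₃ hU₃e 3 (by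
      intro l hl
      apply (K.exact 1 (by norm_num) _).mp
      rw [hU₃w _ (bd_sg_mem_deg hl), bd_bd, map_zero])
  have hU₄w : ∀ w ∈ Deg (G := G) 4, K.d 2 (U₄ w) = U₃ (bd w) := fun w hw =>
    deg_ext (K.d 2 ∘ₗ U₄) (U₃ ∘ₗ bd) 4 hU₄ hw
  -- back
  set B₀ : ℝ →ₗ[ℝ] Ch G := LinearMap.toSpanSingleton ℝ (Ch G) (sg []) with hB₀
  have hB₀a : ∀ r : ℝ, B₀ r = r • sg [] := fun r => rfl
  have hbB₀ : ∀ r, bd (B₀ r) = 0 := by
    intro r
    rw [hB₀a, map_smul, bd_nil, smul_zero]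
  obtain ⟨B₁, hB₁e, hB₁d, hB₁⟩ := stepVs ι (K.free 0 (by norm_num)) ρ₀ D₀ hD₀e 0 B₀
    (fun g x => by rw [hρ₀a, hB₀a, map_smul, push_sg, List.map_nil])
    (fun x => by rw [hB₀a]; exact Submodule.smul_mem _ _ (sg_mem_deg rfl))
    (fun c => hbB₀ _)
  have hdd0 : ∀ c, D₀ (K.d 0 c) = 0 := by
    intro c
    rw [hD₀s]
    exact (K.exact_zero _).mpr ⟨c, rfl⟩
  have hdd : ∀ i ≤ 2, ∀ c, K.d i (K.d (i + 1) c) = 0 := fun i hi c =>
    (K.exact i hi _).mpr ⟨c, rfl⟩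
  obtain ⟨B₂, hB₂e, hB₂d, hB₂⟩ := stepVs ι (K.free 1 (by norm_num)) (perm Γ (K.E 0)) (K.d 0)
    (hde 0 (by norm_num)) 1 B₁ hB₁e hB₁d (fun c => by rw [hB₁, hdd0, map_zero])
  obtain ⟨B₃, hB₃e, hB₃d, hB₃⟩ := stepVs ι (K.free 2 (by norm_num)) (perm Γ (K.E 1)) (K.d 1)
    (hde 1 (by norm_num)) 2 B₂ hB₂e hB₂d (fun c => by
      rw [hB₂, hdd 0 (by norm_num), map_zero])
  obtain ⟨B₄, hB₄e, hB₄d, hB₄⟩ := stepVs ι (K.free 3 (by norm_num)) (perm Γ (K.E 2)) (K.d 2)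
    (hde 2 (by norm_num)) 3 B₃ hB₃e hB₃d (fun c => by
      rw [hB₃, hdd 1 (by norm_num), map_zero])
  obtain ⟨B₅, hB₅e, hB₅d, hB₅⟩ := stepVs ι (K.free 4 (by norm_num)) (perm Γ (K.E 3)) (K.d 3)
    (hde 3 (by norm_num)) 4 B₄ hB₄e hB₄d (fun c => by
      rw [hB₄, hdd 2 (by norm_num), map_zero])
  -- the composites
  have hTe : ∀ {E : Type} [MulAction Γ E] (U : Ch G →ₗ[ℝ] (E →₀ ℝ)) (B : (E →₀ ℝ) →ₗ[ℝ] Ch G),
      (∀ (g : Γ) (l : List G), U (sg (l.map (ι g * ·))) = perm Γ E g (U (sg l))) →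
      (∀ g x, B (perm Γ E g x) = push (ι g * ·) (B x)) →
      ∀ (g : Γ) (l : List G), (B ∘ₗ U) (sg (l.map (ι g * ·))) =
        push (ι g * ·) ((B ∘ₗ U) (sg l)) := by
    intro E _ U B hU hB g l
    rw [LinearMap.comp_apply, LinearMap.comp_apply, hU, hB]
  obtain ⟨H₁, hH₁e, hH₁d, -, hH₁⟩ := stepHs ι (B₀ ∘ₗ U₀) (B₁ ∘ₗ U₁) 0 0
    (hTe U₁ B₁ hU₁e hB₁e) (fun l _ => hB₁d _) (fun g l => by simp)
    (fun l _ => by simp)
    (fun l hl => by
      rw [LinearMap.comp_apply, LinearMap.comp_apply, hB₁, hU₁w _ (sg_mem_deg hl)])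
    (fun v hv _ => by
      have := deg_ext (B₀ ∘ₗ U₀) LinearMap.id 0 (fun l hl => by
        match l, hl with
        | [], _ =>
          rw [LinearMap.comp_apply, hU₀s, hB₀a, one_smul]
          rfl) hv
      rw [this]
      simp)
  obtain ⟨H₂, hH₂e, hH₂d, -, hH₂⟩ := stepHs ι (B₁ ∘ₗ U₁) (B₂ ∘ₗ U₂) H₁ 1
    (hTe U₂ B₂ hU₂e hB₂e) (fun l _ => hB₂d _) hH₁e hH₁d
    (fun l hl => by
      rw [LinearMap.comp_apply, LinearMap.comp_apply, hB₂, hU₂w _ (sg_mem_deg hl)]) hH₁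
  obtain ⟨H₃, hH₃e, hH₃d, -, hH₃⟩ := stepHs ι (B₂ ∘ₗ U₂) (B₃ ∘ₗ U₃) H₂ 2
    (hTe U₃ B₃ hU₃e hB₃e) (fun l _ => hB₃d _) hH₂e hH₂d
    (fun l hl => by
      rw [LinearMap.comp_apply, LinearMap.comp_apply, hB₃, hU₃w _ (sg_mem_deg hl)]) hH₂
  obtain ⟨H₄, hH₄e, hH₄d, hH₄k, -⟩ := stepHs ι (B₃ ∘ₗ U₃) (B₄ ∘ₗ U₄) H₃ 3
    (hTe U₄ B₄ hU₄e hB₄e) (fun l _ => hB₄d _) hH₃e hH₃d
    (fun l hl => by
      rw [LinearMap.comp_apply, LinearMap.comp_apply, hB₄, hU₄w _ (sg_mem_deg hl)]) hH₃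
  refine ⟨U₄, B₄, B₅, H₄, H₃, hU₄e, ?_, hB₄e, hB₅d, hB₅, hH₃e, hH₄d, hH₄k⟩
  intro l hl
  apply (K.exact 2 (by norm_num) _).mp
  rw [hU₄w _ (bd_sg_mem_deg hl), bd_bd, map_zero]

/-- The boundary of the quotient in terms of at most two cofaces. -/
theorem exists_cofaces {Γ : Type} [Group Γ] (K : ThinComplex Γ) (hne : Nonempty (K.E 4))
    (e : K.E 3) : ∃ (f₁ f₂ : K.E 4) (a₁ a₂ : ℝ), (a₁ = 0 ∨ |a₁| = 1) ∧ (a₂ = 0 ∨ |a₂| = 1) ∧
      ∃ A : Finset (K.E 4), (∀ f, K.d 3 (Finsupp.single f 1) e ≠ 0 → f ∈ A) ∧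
        ∀ v : K.E 4 → ℝ, ∑ f ∈ A, K.d 3 (Finsupp.single f 1) e * v f =
          a₁ * v f₁ + a₂ * v f₂ := by
  classical
  set S : Set (K.E 4) := {f | K.d 3 (Finsupp.single f 1) e ≠ 0} with hS
  have hle : S.encard ≤ 2 := K.thin e
  have hfin : S.Finite := Set.finite_of_encard_le_coe (k := 2) (by exact_mod_cast hle)
  have habs : ∀ f ∈ S, |K.d 3 (Finsupp.single f 1) e| = 1 := by
    intro f hf
    rcases K.unit e f with h | h | h
    · exact absurd h hf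
    · rw [h, abs_one]
    · rw [h, abs_neg, abs_one]
  have hcard : hfin.toFinset.card ≤ 2 := by
    have h1 : S.encard = hfin.toFinset.card := hfin.encard_eq_coe_toFinset_card
    rw [h1] at hle
    exact_mod_cast hle
  obtain ⟨f₀⟩ := hne
  have hmem : ∀ f, K.d 3 (Finsupp.single f 1) e ≠ 0 → f ∈ hfin.toFinset :=
    fun f hf => hfin.mem_toFinset.mpr hf
  interval_cases hc : hfin.toFinset.card
  · refine ⟨f₀, f₀, 0, 0, Or.inl rfl, Or.inl rfl, hfin.toFinset, hmem, fun v => ?_⟩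
    rw [Finset.card_eq_zero.mp hc]
    simp
  · obtain ⟨f, hf⟩ := Finset.card_eq_one.mp hc
    have hfS : f ∈ S := hfin.mem_toFinset.mp (by rw [hf]; exact Finset.mem_singleton_self f)
    refine ⟨f, f₀, K.d 3 (Finsupp.single f 1) e, 0, Or.inr (habs f hfS), Or.inl rfl,
      hfin.toFinset, hmem, fun v => ?_⟩
    rw [hf, Finset.sum_singleton, zero_mul, add_zero]
  · obtain ⟨f, f', hff, hf⟩ := Finset.card_eq_two.mp hc
    have hfS : f ∈ S := hfin.mem_toFinset.mp (by rw [hf]; simp)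
    have hfS' : f' ∈ S := hfin.mem_toFinset.mp (by rw [hf]; simp)
    refine ⟨f, f', K.d 3 (Finsupp.single f 1) e, K.d 3 (Finsupp.single f' 1) e,
      Or.inr (habs f hfS), Or.inr (habs f' hfS'), hfin.toFinset, hmem, fun v => ?_⟩
    rw [hf, Finset.sum_pair hff]

/-- An automatic group with a subgroup of finite index that has a thin complex contains no
Heisenberg group inside this subgroup. -/
theorem no_heis_sub (hG : IsAutomatic G) (ι : Γ →* G) (hι : Function.Injective ι)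
    (hfi : ι.range.FiniteIndex) (K : ThinComplex Γ) (φ : Heis →* Γ)
    (hφ : Function.Injective φ) : False := by
  classical
  obtain ⟨C⟩ := exists_comb G hG
  obtain ⟨U, B, B', H₄, H₃, hUe, hUc, hBe, hB'd, hB', hH₃e, hH₄d, hH⟩ := exists_maps ι hι K
  have hde : ∀ g x, K.d 3 (perm Γ (K.E 4) g x) = perm Γ (K.E 3) g (K.d 3 x) :=
    fun g x => K.equivariant 3 (by norm_num) g x
  have hf3 : ∀ (g : Γ) (x : K.E 3), g • x = x → g = 1 := K.free 3 (by norm_num)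
  have hf4 : ∀ (g : Γ) (x : K.E 4), g • x = x → g = 1 := K.free 4 (by norm_num)
  -- the homomorphism to the big group
  set θ : Heis →* G := ι.comp φ with hθ
  have hθinj : Function.Injective θ := by
    rw [hθ, MonoidHom.coe_comp]
    exact hι.comp hφ
  -- the quotient boundary
  obtain ⟨D, hD⟩ := descend φ (E := K.E 4) (prj φ (K.E 3) ∘ₗ K.d 3) (by
    intro n c
    rw [LinearMap.comp_apply, LinearMap.comp_apply, hde, prj_perm])
  have hD' : ∀ c, D (prj φ (K.E 4) c) = prj φ (K.E 3) (K.d 3 c) := fun c => by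
    rw [hD]; rfl
  set z : Ch G := push θ fund with hz
  set w := prj φ (K.E 3) (U z) with hw
  -- every bounded functional kills `w`
  have hkill : ∀ ψ : (Quotient (orb φ (K.E 3)) →₀ ℝ) →ₗ[ℝ] ℝ, (∀ x, |ψ x| ≤ l1 x) →
      (∀ b, ψ (D b) = 0) → ψ w = 0 := by
    intro ψ h1 h2
    have := vanish C θ (ψ ∘ₗ prj φ (K.E 3) ∘ₗ U) ?_ ?_ ?_
    · exact this
    · intro n l
      simp only [LinearMap.comp_apply]
      have e1 : U (sg (l.map (θ n * ·))) = perm Γ (K.E 3) (φ n) (U (sg l)) := hUe (φ n) l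
      rw [e1, prj_perm]
    · intro l hl
      simp only [LinearMap.comp_apply]
      obtain ⟨y, hy⟩ := hUc l hl
      rw [← hy, ← hD']
      exact h2 _
    · intro R
      obtain ⟨M, hM⟩ := bounded_of_sub C ι hfi (fun l => l1 (U (sg l)))
        (fun g l _ => by rw [hUe, l1_perm]) R
      refine ⟨M, fun l hl hs => ?_⟩
      simp only [LinearMap.comp_apply]
      exact (h1 _).trans ((l1_prj_le φ _).trans (hM l hl hs))
  -- hence `w` is a boundary
  have hwb : ∃ b, D b = w := by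
    rcases isEmpty_or_nonempty (K.E 4) with hemp | hne
    · -- no 4-cells
      have hD0 : ∀ b, D b = 0 := by
        intro b
        obtain ⟨c, rfl⟩ := prj_surj φ b
        rw [Subsingleton.elim c 0, map_zero, map_zero]
      refine ⟨0, ?_⟩
      rw [hD0]
      by_contra hne
      have hpos : 0 < l1 w := lt_of_le_of_ne (l1_nonneg w) (fun h => hne (eq_zero_of_l1 h.symm).symm)
      obtain ⟨ψ, h1, -, h3⟩ := separate (⊥ : Submodule ℝ _) w (l1 w) hpos (by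
        intro s hs
        rw [(Submodule.mem_bot ℝ).mp hs, sub_zero])
      exact h3 (hkill ψ h1 fun b => by rw [hD0, map_zero])
    · have hex := fun e : K.E 3 => exists_cofaces K hne e
      choose f₁ f₂ a₁ a₂ ha₁ ha₂ A hA hsum using hex
      refine exists_of_functional D (fun q => Quotient.mk (orb φ (K.E 4)) (f₁ q.out))
        (fun q => Quotient.mk (orb φ (K.E 4)) (f₂ q.out)) (fun q => a₁ q.out)
        (fun q => a₂ q.out) (fun q => ha₁ _) (fun q => ha₂ _) ?_ w hkill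
      intro b q
      have key : ∀ (f₀ : K.E 4), D (Finsupp.single (Quotient.mk (orb φ (K.E 4)) f₀) 1) q =
          a₁ q.out * Finsupp.single (Quotient.mk (orb φ (K.E 4)) f₀) (1 : ℝ)
            (Quotient.mk (orb φ (K.E 4)) (f₁ q.out)) +
          a₂ q.out * Finsupp.single (Quotient.mk (orb φ (K.E 4)) f₀) (1 : ℝ)
            (Quotient.mk (orb φ (K.E 4)) (f₂ q.out)) := by
        intro f₀
        rw [← prj_single φ f₀ 1, hD']
        have e1 := prj_coef φ hf3 hf4 (K.d 3) hde q.out (A q.out) (hA q.out) f₀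
        rw [Quotient.out_eq q] at e1
        rw [e1, prj_single]
        exact hsum q.out fun f => Finsupp.single (Quotient.mk (orb φ (K.E 4)) f₀) (1 : ℝ)
            (Quotient.mk (orb φ (K.E 4)) f)
      have hlin : (Finsupp.lapply q ∘ₗ D : (Quotient (orb φ (K.E 4)) →₀ ℝ) →ₗ[ℝ] ℝ) =
          a₁ q.out • Finsupp.lapply (Quotient.mk (orb φ (K.E 4)) (f₁ q.out)) +
          a₂ q.out • Finsupp.lapply (Quotient.mk (orb φ (K.E 4)) (f₂ q.out)) := by
        apply Finsupp.lhom_ext'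
        intro p
        apply LinearMap.ext_ring
        induction p using Quotient.inductionOn with
        | h f₀ =>
          simp only [LinearMap.comp_apply, Finsupp.lsingle_apply, LinearMap.add_apply,
            LinearMap.smul_apply, smul_eq_mul, Finsupp.lapply_apply]
          exact key f₀
      have := LinearMap.congr_fun hlin b
      simpa using this
  -- the volume functional
  obtain ⟨r, hr1, hr2⟩ := exists_retraction θ hθinj
  set V : Ch G →ₗ[ℝ] ℝ := nu ∘ₗ push r with hV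
  have hVi : InvUnder θ V := by
    intro n l
    simp only [hV, LinearMap.comp_apply, push_sg, List.map_map]
    have := nu_inv n (l.map r)
    rw [List.map_map] at this
    rw [← this]
    congr 2
    apply List.map_congr_left
    intro x _
    simp [hr1]
  have hVc : ∀ x ∈ Deg (G := G) 5, V (bd x) = 0 := by
    intro x hx
    rw [hV, LinearMap.comp_apply, push_bd]
    exact nu_closed.apply (push_mem_deg _ hx)
  obtain ⟨Λ, hΛ⟩ := descend φ (E := K.E 3) (V ∘ₗ B) (by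
    intro n c
    rw [LinearMap.comp_apply, LinearMap.comp_apply, hBe]
    exact hVi.apply n (B c))
  -- it kills boundaries
  have hΛD : ∀ b, Λ (D b) = 0 := by
    intro b
    obtain ⟨c, rfl⟩ := prj_surj φ b
    rw [hD', hΛ, LinearMap.comp_apply, ← hB']
    exact hVc _ (hB'd c)
  have hzd : z ∈ Deg (G := G) 4 := push_mem_deg _ fund_mem_deg
  have h1 : Λ w = 1 := by
    rw [hw, hΛ, LinearMap.comp_apply]
    have e1 : (B ∘ₗ U - (LinearMap.id : Ch G →ₗ[ℝ] Ch G)) z = (bd ∘ₗ H₄ + H₃ ∘ₗ bd) z := by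
      refine deg_ext _ _ 4 (fun l hl => ?_) hzd
      simp only [LinearMap.sub_apply, LinearMap.id_apply, LinearMap.add_apply,
        LinearMap.comp_apply]
      exact hH l hl
    simp only [LinearMap.sub_apply, LinearMap.id_apply, LinearMap.add_apply,
      LinearMap.comp_apply] at e1
    have e2 : V (B (U z)) - V z = V (bd (H₄ z)) + V (H₃ (bd z)) := by
      rw [← map_sub, e1, map_add]
    have e3 : H₄ z ∈ Deg (G := G) 5 := map_mem_of_sg H₄ hH₄d hzd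
    rw [hVc _ e3, zero_add] at e2
    have e4 : InvUnder (MonoidHom.id Heis) (V ∘ₗ H₃ ∘ₗ push θ) := by
      intro n l
      simp only [LinearMap.comp_apply, push_sg, MonoidHom.id_apply, List.map_map]
      have e5 : (l.map θ).map (ι (φ n) * ·) = l.map (θ ∘ fun x => n * x) := by
        rw [List.map_map]
        apply List.map_congr_left
        intro x _
        simp [hθ]
      rw [← e5, hH₃e]
      exact hVi.apply n _
    have e6 := fund_cycle _ e4
    simp only [LinearMap.comp_apply] at e6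
    rw [push_bd] at e6
    rw [e6, sub_eq_zero] at e2
    rw [e2, hz, hV, LinearMap.comp_apply, push_push]
    have h6 : r ∘ θ = fun x => x := by ext x <;> simp [hr2]
    rw [h6, push_id, nu_fund]
  obtain ⟨b, hb⟩ := hwb
  rw [← hb, hΛD] at h1
  exact zero_ne_one h1

end Pool.Agent.H9Thin
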