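import Pool.Agent.H9Thin.Norm

set_option autoImplicit false

/-!
# The pseudomanifold lemma

A finitely supported 3-chain which is a limit of boundaries, in a complex in which every 3-cell lies
in at most two 4-cells, is a boundary.
-/

namespace Pool.Agent.H9Thin

variable {Q₃ Q₄ : Type}

/-- Two 4-cells are joined if they are the two cofaces of a 3-cell outside `T`. -/
def coGraph (f₁ f₂ : Q₃ → Q₄) (a₁ a₂ : Q₃ → ℝ) (T : Finset Q₃) : SimpleGraph Q₄ :=
  SimpleGraph.fromRel fun p q => ∃ e, e ∉ T ∧ a₁ e ≠ 0 ∧ a₂ e ≠ 0 ∧ f₁ e = p ∧ f₂ e = q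

/-- Along a path the absolute value of the coefficients changes at most by the boundary. -/
theorem path_bound (D : (Q₄ →₀ ℝ) →ₗ[ℝ] (Q₃ →₀ ℝ)) (f₁ f₂ : Q₃ → Q₄) (a₁ a₂ : Q₃ → ℝ)
    (ha₁ : ∀ e, a₁ e = 0 ∨ |a₁ e| = 1) (ha₂ : ∀ e, a₂ e = 0 ∨ |a₂ e| = 1)
    (hD : ∀ b e, D b e = a₁ e * b (f₁ e) + a₂ e * b (f₂ e)) (T : Finset Q₃) (b : Q₄ →₀ ℝ)
    {u v : Q₄} (p : (coGraph f₁ f₂ a₁ a₂ T).Walk u v) (hp : p.IsPath) :
    ∃ E : Finset Q₃, (∀ e ∈ E, e ∉ T ∧ f₁ e ∈ p.support ∧ f₂ e ∈ p.support) ∧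
      |b u| ≤ |b v| + ∑ e ∈ E, |D b e| := by
  classical
  induction p with
  | nil => exact ⟨∅, by simp, by simp⟩
  | @cons u u' v h p ih =>
    rw [SimpleGraph.Walk.cons_isPath_iff] at hp
    obtain ⟨E, hE, hb⟩ := ih hp.1
    have hadj := h
    rw [coGraph, SimpleGraph.fromRel_adj] at hadj
    obtain ⟨hne, hadj⟩ := hadj
    have key : ∃ e, e ∉ T ∧ a₁ e ≠ 0 ∧ a₂ e ≠ 0 ∧
        ((f₁ e = u ∧ f₂ e = u') ∨ (f₁ e = u' ∧ f₂ e = u)) := by
      rcases hadj with ⟨e, he, h1, h2, h3, h4⟩ | ⟨e, he, h1, h2, h3, h4⟩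
      · exact ⟨e, he, h1, h2, Or.inl ⟨h3, h4⟩⟩
      · exact ⟨e, he, h1, h2, Or.inr ⟨h3, h4⟩⟩
    obtain ⟨e, heT, h1, h2, h3⟩ := key
    have hnot : e ∉ E := by
      intro heE
      obtain ⟨_, h4, h5⟩ := hE e heE
      rcases h3 with ⟨h6, _⟩ | ⟨_, h6⟩
      · rw [h6] at h4; exact hp.2 h4
      · rw [h6] at h5; exact hp.2 h5
    have e1 : |a₁ e| = 1 := (ha₁ e).resolve_left h1
    have e2 : |a₂ e| = 1 := (ha₂ e).resolve_left h2
    have hstep : |b u| ≤ |b u'| + |D b e| := by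
      rw [hD]
      rcases h3 with ⟨h6, h7⟩ | ⟨h6, h7⟩
      · rw [h6, h7]
        have : |a₁ e * b u| ≤ |a₁ e * b u + a₂ e * b u'| + |a₂ e * b u'| := by
          have := abs_sub_abs_le_abs_sub (a₁ e * b u) (-(a₂ e * b u'))
          rw [abs_neg, sub_neg_eq_add] at this
          linarith
        rw [abs_mul, e1, one_mul, abs_mul (a₂ e) (b u'), e2, one_mul] at this
        linarith
      · rw [h6, h7]
        have : |a₂ e * b u| ≤ |a₁ e * b u' + a₂ e * b u| + |a₁ e * b u'| := by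
          have := abs_sub_abs_le_abs_sub (a₂ e * b u) (-(a₁ e * b u'))
          rw [abs_neg, sub_neg_eq_add, add_comm (a₂ e * b u)] at this
          linarith
        rw [abs_mul, e2, one_mul, abs_mul (a₁ e) (b u'), e1, one_mul] at this
        linarith
    refine ⟨insert e E, ?_, ?_⟩
    · intro x hx
      rcases Finset.mem_insert.mp hx with rfl | hx
      · refine ⟨heT, ?_, ?_⟩
        · rw [SimpleGraph.Walk.support_cons]
          rcases h3 with ⟨h6, _⟩ | ⟨h6, _⟩
          · rw [h6]; exact List.mem_cons_self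
          · rw [h6]; exact List.mem_cons_of_mem _ p.start_mem_support
        · rw [SimpleGraph.Walk.support_cons]
          rcases h3 with ⟨_, h6⟩ | ⟨_, h6⟩
          · rw [h6]; exact List.mem_cons_of_mem _ p.start_mem_support
          · rw [h6]; exact List.mem_cons_self
      · obtain ⟨h4, h5, h6⟩ := hE x hx
        rw [SimpleGraph.Walk.support_cons]
        exact ⟨h4, List.mem_cons_of_mem _ h5, List.mem_cons_of_mem _ h6⟩
    · rw [Finset.sum_insert hnot]
      linarith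

/-- On an infinite component the coefficients are bounded by the norm of the rest. -/
theorem infinite_bound (D : (Q₄ →₀ ℝ) →ₗ[ℝ] (Q₃ →₀ ℝ)) (f₁ f₂ : Q₃ → Q₄) (a₁ a₂ : Q₃ → ℝ)
    (ha₁ : ∀ e, a₁ e = 0 ∨ |a₁ e| = 1) (ha₂ : ∀ e, a₂ e = 0 ∨ |a₂ e| = 1)
    (hD : ∀ b e, D b e = a₁ e * b (f₁ e) + a₂ e * b (f₂ e)) (w : Q₃ →₀ ℝ) (b : Q₄ →₀ ℝ)
    (u : Q₄) (hu : {v | (coGraph f₁ f₂ a₁ a₂ w.support).Reachable u v}.Infinite) :
    |b u| ≤ l1 (w - D b) := by
  classical
  obtain ⟨v, hv, hvb⟩ := hu.exists_notMem_finset b.support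
  obtain ⟨p, hp⟩ := SimpleGraph.Reachable.exists_isPath hv
  obtain ⟨E, hE, h1⟩ := path_bound D f₁ f₂ a₁ a₂ ha₁ ha₂ hD w.support b p hp
  rw [Finsupp.notMem_support_iff.mp hvb, abs_zero, zero_add] at h1
  refine h1.trans ?_
  refine le_trans (le_of_eq ?_) (sum_le_l1 (w - D b) E)
  refine Finset.sum_congr rfl fun e he => ?_
  rw [Finsupp.sub_apply, Finsupp.notMem_support_iff.mp (hE e he).1, zero_sub, abs_neg]

/-- The pseudomanifold lemma. -/
theorem pseudo (D : (Q₄ →₀ ℝ) →ₗ[ℝ] (Q₃ →₀ ℝ)) (f₁ f₂ : Q₃ → Q₄) (a₁ a₂ : Q₃ → ℝ)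
    (ha₁ : ∀ e, a₁ e = 0 ∨ |a₁ e| = 1) (ha₂ : ∀ e, a₂ e = 0 ∨ |a₂ e| = 1)
    (hD : ∀ b e, D b e = a₁ e * b (f₁ e) + a₂ e * b (f₂ e)) (w : Q₃ →₀ ℝ)
    (hw : ∀ ε > 0, ∃ b, l1 (w - D b) < ε) : ∃ b, D b = w := by
  classical
  set T := w.support with hT
  set Γ := coGraph f₁ f₂ a₁ a₂ T with hΓ
  set cmp : Q₄ → Set Q₄ := fun p => {q | Γ.Reachable p q} with hcmp
  set F : Set Q₄ := ⋃ e ∈ T, ((if (cmp (f₁ e)).Finite then cmp (f₁ e) else ∅) ∪
    (if (cmp (f₂ e)).Finite then cmp (f₂ e) else ∅)) with hF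
  have hFfin : F.Finite := by
    refine Set.Finite.biUnion T.finite_toSet fun e _ => Set.Finite.union ?_ ?_
    · split
      · assumption
      · exact Set.finite_empty
    · split
      · assumption
      · exact Set.finite_empty
  have hFcl : ∀ p ∈ F, ∀ q, Γ.Reachable p q → q ∈ F := by
    intro p hp q hpq
    simp only [hF, Set.mem_iUnion, Set.mem_union] at hp ⊢
    obtain ⟨e, he, hp⟩ := hp
    refine ⟨e, he, ?_⟩
    rcases hp with hp | hp
    · left
      split at hp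
      · rename_i h
        rw [if_pos h]
        exact SimpleGraph.Reachable.trans hp hpq
      · exact absurd hp (Set.notMem_empty _)
    · right
      split at hp
      · rename_i h
        rw [if_pos h]
        exact SimpleGraph.Reachable.trans hp hpq
      · exact absurd hp (Set.notMem_empty _)
  have hF1 : ∀ e ∈ T, f₁ e ∉ F → (cmp (f₁ e)).Infinite := by
    intro e he h
    intro hfin
    apply h
    simp only [hF, Set.mem_iUnion, Set.mem_union]
    refine ⟨e, he, Or.inl ?_⟩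
    rw [if_pos hfin]
    exact SimpleGraph.Reachable.refl _
  have hF2 : ∀ e ∈ T, f₂ e ∉ F → (cmp (f₂ e)).Infinite := by
    intro e he h
    intro hfin
    apply h
    simp only [hF, Set.mem_iUnion, Set.mem_union]
    refine ⟨e, he, Or.inr ?_⟩
    rw [if_pos hfin]
    exact SimpleGraph.Reachable.refl _
  have hadj : ∀ e, e ∉ T → a₁ e ≠ 0 → a₂ e ≠ 0 → (f₁ e ∈ F ↔ f₂ e ∈ F) := by
    intro e he h1 h2
    have hr : Γ.Reachable (f₁ e) (f₂ e) := by
      by_cases h : f₁ e = f₂ e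
      · rw [h]
      · apply SimpleGraph.Adj.reachable
        rw [hΓ, coGraph, SimpleGraph.fromRel_adj]
        exact ⟨h, Or.inl ⟨e, he, h1, h2, rfl, rfl⟩⟩
    exact ⟨fun h => hFcl _ h _ hr, fun h => hFcl _ h _ hr.symm⟩
  have habs₁ : ∀ e, |a₁ e| ≤ 1 := by
    intro e
    rcases ha₁ e with h | h
    · rw [h]; simp
    · rw [h]
  have habs₂ : ∀ e, |a₂ e| ≤ 1 := by
    intro e
    rcases ha₂ e with h | h
    · rw [h]; simp
    · rw [h]
  -- cutting down
  have hcut : ∀ ε > 0, ∃ b : Q₄ →₀ ℝ, (∀ q, q ∉ F → b q = 0) ∧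
      l1 (w - D b) ≤ ε * (1 + 2 * T.card) := by
    intro ε hε
    obtain ⟨b, hb⟩ := hw ε hε
    set b' : Q₄ →₀ ℝ := b.filter (· ∈ F) with hb'
    have hin : ∀ q ∈ F, b' q = b q := fun q hq => Finsupp.filter_apply_pos _ _ hq
    have hout : ∀ q, q ∉ F → b' q = 0 := fun q hq => Finsupp.filter_apply_neg _ _ hq
    refine ⟨b', hout, ?_⟩
    have hpt : ∀ e, |(w - D b') e| ≤ |(w - D b) e| + (if e ∈ T then 2 * ε else 0) := by
      intro e
      rw [Finsupp.sub_apply, Finsupp.sub_apply]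
      by_cases he : e ∈ T
      · rw [if_pos he]
        have h1 : |b (f₁ e) - b' (f₁ e)| ≤ ε := by
          by_cases h : f₁ e ∈ F
          · rw [hin _ h, sub_self, abs_zero]; exact hε.le
          · rw [hout _ h, sub_zero]
            exact (infinite_bound D f₁ f₂ a₁ a₂ ha₁ ha₂ hD w b _ (hF1 e he h)).trans hb.le
        have h2 : |b (f₂ e) - b' (f₂ e)| ≤ ε := by
          by_cases h : f₂ e ∈ F
          · rw [hin _ h, sub_self, abs_zero]; exact hε.le
          · rw [hout _ h, sub_zero]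
            exact (infinite_bound D f₁ f₂ a₁ a₂ ha₁ ha₂ hD w b _ (hF2 e he h)).trans hb.le
        have e1 : w e - D b' e = (w e - D b e) + (a₁ e * (b (f₁ e) - b' (f₁ e)) +
            a₂ e * (b (f₂ e) - b' (f₂ e))) := by
          rw [hD, hD]; ring
        rw [e1]
        refine (abs_add_le _ _).trans (add_le_add le_rfl ?_)
        refine (abs_add_le _ _).trans ?_
        rw [abs_mul, abs_mul]
        have e2 : |a₁ e| * |b (f₁ e) - b' (f₁ e)| ≤ 1 * ε :=
          mul_le_mul (habs₁ e) h1 (abs_nonneg _) zero_le_one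
        have e3 : |a₂ e| * |b (f₂ e) - b' (f₂ e)| ≤ 1 * ε :=
          mul_le_mul (habs₂ e) h2 (abs_nonneg _) zero_le_one
        linarith
      · rw [if_neg he, add_zero, Finsupp.notMem_support_iff.mp he, zero_sub, zero_sub, abs_neg,
          abs_neg, hD, hD]
        by_cases h1 : a₁ e = 0
        · rw [h1, zero_mul, zero_mul, zero_add, zero_add, abs_mul, abs_mul]
          refine mul_le_mul_of_nonneg_left ?_ (abs_nonneg _)
          by_cases h : f₂ e ∈ F
          · rw [hin _ h]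
          · rw [hout _ h, abs_zero]; exact abs_nonneg _
        by_cases h2 : a₂ e = 0
        · rw [h2, zero_mul, zero_mul, add_zero, add_zero, abs_mul, abs_mul]
          refine mul_le_mul_of_nonneg_left ?_ (abs_nonneg _)
          by_cases h : f₁ e ∈ F
          · rw [hin _ h]
          · rw [hout _ h, abs_zero]; exact abs_nonneg _
        have h3 := hadj e he h1 h2
        by_cases h : f₁ e ∈ F
        · rw [hin _ h, hin _ (h3.mp h)]
        · rw [hout _ h, hout _ (fun h' => h (h3.mpr h')), mul_zero, mul_zero, add_zero, abs_zero]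
          exact abs_nonneg _
    set s : Finset Q₃ := (w - D b').support ∪ T with hs
    rw [l1_eq_of_subset (w - D b') (s := s) Finset.subset_union_left]
    calc ∑ e ∈ s, |(w - D b') e| ≤ ∑ e ∈ s, (|(w - D b) e| + (if e ∈ T then 2 * ε else 0)) :=
          Finset.sum_le_sum fun e _ => hpt e
      _ = ∑ e ∈ s, |(w - D b) e| + ∑ e ∈ s, (if e ∈ T then 2 * ε else 0) :=
          Finset.sum_add_distrib
      _ ≤ ε + 2 * ε * T.card := by
          refine add_le_add ((sum_le_l1 _ _).trans hb.le) (le_of_eq ?_)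
          rw [← Finset.sum_filter]
          have : s.filter (· ∈ T) = T := by
            ext e
            simp only [Finset.mem_filter, hs, Finset.mem_union]
            tauto
          rw [this, Finset.sum_const, nsmul_eq_mul]
          ring
      _ = ε * (1 + 2 * T.card) := by ring
  -- finite dimension
  by_contra hcon
  set S : Submodule ℝ (Q₃ →₀ ℝ) := LinearMap.range D with hS
  have hwS : w ∉ S := fun h => hcon h
  obtain ⟨ψ, h1, h2⟩ := Submodule.exists_dual_map_eq_bot_of_notMem hwS inferInstance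
  have h3 : ∀ b, ψ (D b) = 0 := by
    intro b
    have : ψ (D b) ∈ S.map ψ := ⟨D b, ⟨b, rfl⟩, rfl⟩
    rw [h2] at this
    exact this
  set U : Finset Q₃ := T ∪ hFfin.toFinset.biUnion (fun q => (D (Finsupp.single q 1)).support) with hU
  set C : ℝ := ∑ e ∈ U, |ψ (Finsupp.single e 1)| with hC
  have hC0 : 0 ≤ C := Finset.sum_nonneg fun _ _ => abs_nonneg _
  have hbound : ∀ x : Q₃ →₀ ℝ, x.support ⊆ U → |ψ x| ≤ C * l1 x := by
    intro x hx
    have e1 : x = ∑ e ∈ x.support, x e • Finsupp.single e (1 : ℝ) := by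
      conv_lhs => rw [← Finsupp.sum_single x]
      rw [Finsupp.sum]
      refine Finset.sum_congr rfl fun e _ => ?_
      rw [Finsupp.smul_single, smul_eq_mul, mul_one]
    have e2 : ψ x = ∑ e ∈ x.support, x e * ψ (Finsupp.single e 1) := by
      conv_lhs => rw [e1]
      rw [map_sum]
      refine Finset.sum_congr rfl fun e _ => ?_
      rw [map_smul, smul_eq_mul]
    rw [e2, l1, Finsupp.sum, Finset.mul_sum]
    refine (Finset.abs_sum_le_sum_abs _ _).trans (Finset.sum_le_sum fun e he => ?_)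
    rw [abs_mul, mul_comm]
    refine mul_le_mul_of_nonneg_right ?_ (abs_nonneg _)
    exact Finset.single_le_sum (f := fun e => |ψ (Finsupp.single e 1)|)
      (fun _ _ => abs_nonneg _) (hx he)
  have hsup : ∀ b : Q₄ →₀ ℝ, (∀ q, q ∉ F → b q = 0) → (w - D b).support ⊆ U := by
    intro b hb e he
    by_contra hne
    rw [hU, Finset.mem_union, not_or] at hne
    rw [Finsupp.mem_support_iff, Finsupp.sub_apply, Finsupp.notMem_support_iff.mp hne.1,
      zero_sub, neg_ne_zero] at he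
    apply he
    have e1 : b = ∑ q ∈ b.support, b q • Finsupp.single q (1 : ℝ) := by
      conv_lhs => rw [← Finsupp.sum_single b]
      rw [Finsupp.sum]
      refine Finset.sum_congr rfl fun q _ => ?_
      rw [Finsupp.smul_single, smul_eq_mul, mul_one]
    rw [e1, map_sum, Finsupp.finsetSum_apply]
    refine Finset.sum_eq_zero fun q hq => ?_
    rw [map_smul, Finsupp.smul_apply, smul_eq_mul]
    have hqF : q ∈ F := by
      by_contra h
      exact (Finsupp.mem_support_iff.mp hq) (hb q h)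
    have : e ∉ (D (Finsupp.single q 1)).support := by
      intro h
      exact hne.2 (Finset.mem_biUnion.mpr ⟨q, hFfin.mem_toFinset.mpr hqF, h⟩)
    rw [Finsupp.notMem_support_iff.mp this, mul_zero]
  have hpos : 0 < |ψ w| := abs_pos.mpr h1
  set K : ℝ := (C + 1) * (1 + 2 * T.card) with hK
  have hKpos : 0 < K := by positivity
  obtain ⟨b, hb1, hb2⟩ := hcut (|ψ w| / (2 * K)) (by positivity)
  have h4 := hbound _ (hsup b hb1)
  rw [map_sub, h3, sub_zero] at h4
  have h5 : C * l1 (w - D b) ≤ (C + 1) * (|ψ w| / (2 * K) * (1 + 2 * T.card)) :=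
    mul_le_mul (by linarith) hb2 (l1_nonneg _) (by positivity)
  have h6 : (C + 1) * (|ψ w| / (2 * K) * (1 + 2 * T.card)) = |ψ w| / 2 := by
    rw [hK]
    have : (C + 1) ≠ 0 := by positivity
    have : (1 + 2 * (T.card : ℝ)) ≠ 0 := by positivity
    field_simp
  linarith

end Pool.Agent.H9Thin
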